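import Mathlib

/-!
# Alternation lemma (part I.1 of the lower bound for Lie identities of sl_n)

Cyclic functions on the arrangements of a list `us` of letters, some of which are called single.
If the middle letters of every window with at least two single letters can be exchanged with a
minus sign, there are more single letters than others and some non-single letter is repeated,
then the function is zero.
-/

namespace LieLow

variable {T : Type*}

/-- Number of single letters. -/
def cs (sg : T → Bool) (l : List T) : ℕ := l.countP sg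

/-- Number of letters which are not single. -/
def cn (sg : T → Bool) (l : List T) : ℕ := l.countP (fun t => !sg t)

/-- The exchange property for windows with at least two single letters. -/
structure AltData (us : List T) (sg : T → Bool) (f : List T → ℚ) : Prop where
  cyc : ∀ l l', (l ++ l').Perm us → f (l ++ l') = f (l' ++ l)
  sw : ∀ p a b p' r, (p :: a :: b :: p' :: r).Perm us → 2 ≤ cs sg [p, a, b, p'] →
    f (p :: a :: b :: p' :: r) = - f (p :: b :: a :: p' :: r)

variable {us : List T} {sg : T → Bool} {f : List T → ℚ}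

private theorem swp (a b : T) (l : List T) : (a :: b :: l).Perm (b :: a :: l) :=
  List.Perm.swap b a l

private theorem swm (u : List T) (p a b p' : T) (v : List T) :
    (u ++ p :: a :: b :: p' :: v).Perm (u ++ p :: b :: a :: p' :: v) :=
  List.Perm.append_left u ((swp a b (p' :: v)).cons p)

theorem AltData.swc (h : AltData us sg f) (u v : List T) (p a b p' : T)
    (hp : (u ++ p :: a :: b :: p' :: v).Perm us) (hs : 2 ≤ cs sg [p, a, b, p']) :
    f (u ++ p :: a :: b :: p' :: v) = - f (u ++ p :: b :: a :: p' :: v) := by
  have hp2 : (p :: a :: b :: p' :: v ++ u).Perm us := List.perm_append_comm.trans hp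
  have h1 := h.cyc u (p :: a :: b :: p' :: v) hp
  have h2 := h.cyc u (p :: b :: a :: p' :: v) ((swm u p a b p' v).symm.trans hp)
  have h3 := h.sw p a b p' (v ++ u) (by simpa using hp2) hs
  rw [h1, h2]
  simpa using h3

private theorem perm_rot {a b : List T} (h : (a ++ b).Perm us) : (b ++ a).Perm us :=
  List.perm_append_comm.trans h

/-- A single pair passes a letter. -/
theorem AltData.pass2 (h : AltData us sg f) (x1 x2 b : T) (r : List T) (hr : r ≠ [])
    (hp : (x1 :: x2 :: b :: r).Perm us) (h1 : sg x1 = true) (h2 : sg x2 = true) :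
    f (x1 :: x2 :: b :: r) = f (b :: x1 :: x2 :: r) := by
  have e1 : f (x1 :: x2 :: b :: r) = - f (x1 :: b :: x2 :: r) := by
    obtain ⟨c, r', rfl⟩ := List.exists_cons_of_ne_nil hr
    exact h.sw x1 x2 b c r' hp (by simp [cs, h1, h2])
  have hp' : (x1 :: b :: x2 :: r).Perm us := by
    refine List.Perm.trans ?_ hp
    exact ((swp b x2 r)).cons x1
  have e2 : f (x1 :: b :: x2 :: r) = - f (b :: x1 :: x2 :: r) := by
    obtain ⟨s, d, rfl⟩ : ∃ s d, r = s ++ [d] := by
      rcases List.eq_nil_or_concat r with h' | ⟨s, d, h'⟩
      · exact absurd h' hr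
      · exact ⟨s, d, by simpa using h'⟩
    have c1 : f (x1 :: b :: x2 :: (s ++ [d])) = f (d :: x1 :: b :: x2 :: s) := by
      have := h.cyc (x1 :: b :: x2 :: s) [d] (by simpa using hp')
      simpa using this
    have hp2 : (d :: x1 :: b :: x2 :: s).Perm us := by
      have := perm_rot (a := x1 :: b :: x2 :: s) (b := [d]) (by simpa using hp')
      simpa using this
    have hp3 : (d :: b :: x1 :: x2 :: s).Perm us :=
      ((swp b x1 (x2 :: s)).cons d).trans hp2
    have c2 : f (b :: x1 :: x2 :: (s ++ [d])) = f (d :: b :: x1 :: x2 :: s) := by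
      have := h.cyc (b :: x1 :: x2 :: s) [d] (by
        have := perm_rot (a := [d]) (b := b :: x1 :: x2 :: s) (by simpa using hp3)
        simpa using this)
      simpa using this
    rw [c1, c2]
    exact h.sw d x1 b x2 s hp2 (by
      have hh : cs sg [d, x1, b, x2] = cs sg [d] + cs sg [b] + 2 := by
        simp [cs, List.countP_cons, h1, h2]
        ring
      omega)
  rw [e1, e2, neg_neg]

/-- A letter rotates past a block of three single letters. -/
theorem AltData.rot3 (h : AltData us sg f) (x1 x2 x3 b : T) (r : List T) (hr : r ≠ [])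
    (hp : (x1 :: x2 :: x3 :: b :: r).Perm us) (h1 : sg x1 = true) (h2 : sg x2 = true)
    (h3 : sg x3 = true) :
    f (x1 :: x2 :: x3 :: b :: r) = - f (x1 :: x2 :: x3 :: (r ++ [b])) := by
  have e1 : f (x1 :: x2 :: x3 :: b :: r) = - f (x1 :: x2 :: b :: x3 :: r) := by
    obtain ⟨c, r', rfl⟩ := List.exists_cons_of_ne_nil hr
    exact h.swc [x1] r' x2 x3 b c hp (by simp [cs, h2, h3])
  have hp' : (x1 :: x2 :: b :: (x3 :: r)).Perm us := by
    refine List.Perm.trans ?_ hp
    exact ((swp b x3 r).cons x2).cons x1
  have e2 := h.pass2 x1 x2 b (x3 :: r) (by simp) hp' h1 h2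
  have hp2 : (b :: x1 :: x2 :: x3 :: r).Perm us := by
    refine List.Perm.trans ?_ hp'
    exact (swp b x1 (x2 :: x3 :: r)).trans ((swp b x2 (x3 :: r)).cons x1)
  have e3 : f (b :: x1 :: x2 :: x3 :: r) = f (x1 :: x2 :: x3 :: (r ++ [b])) := by
    have := h.cyc [b] (x1 :: x2 :: x3 :: r) (by simpa using hp2)
    simpa using this
  rw [e1, e2, e3]

/-- The first two letters after a block of three single letters can be exchanged. -/
theorem AltData.tr3 (h : AltData us sg f) (x1 x2 x3 b1 b2 : T) (r : List T) (hr : r ≠ [])
    (hp : (x1 :: x2 :: x3 :: b1 :: b2 :: r).Perm us) (h1 : sg x1 = true) (h2 : sg x2 = true)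
    (h3 : sg x3 = true) :
    f (x1 :: x2 :: x3 :: b1 :: b2 :: r) = - f (x1 :: x2 :: x3 :: b2 :: b1 :: r) := by
  obtain ⟨c, v, rfl⟩ := List.exists_cons_of_ne_nil hr
  -- half of the way, for any order of the two letters
  have half : ∀ y z : T, (x1 :: x2 :: x3 :: y :: z :: c :: v).Perm us →
      f (x1 :: x2 :: x3 :: y :: z :: c :: v) = f (x1 :: y :: z :: x2 :: x3 :: c :: v) ∧
      (x1 :: y :: z :: x2 :: x3 :: c :: v).Perm us := by
    intro y z hq
    have s1 := h.swc [x1] (c :: v) x2 x3 y z hq (by simp [cs, h2, h3])
    have q1 : (x1 :: x2 :: y :: x3 :: z :: c :: v).Perm us :=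
      (swm [x1] x2 y x3 z (c :: v)).trans hq
    have s2 := h.swc [] (z :: c :: v) x1 x2 y x3 q1 (by
      have : cs sg [x1, x2, y, x3] = cs sg [y] + 3 := by
        simp [cs, List.countP_cons, h1, h2, h3]
        ring
      omega)
    have q2 : (x1 :: y :: x2 :: x3 :: z :: c :: v).Perm us :=
      (swm [] x1 y x2 x3 (z :: c :: v)).trans q1
    have s3 := h.swc [x1, y] v x2 x3 z c q2 (by simp [cs, h2, h3])
    have q3 : (x1 :: y :: x2 :: z :: x3 :: c :: v).Perm us :=
      (swm [x1, y] x2 z x3 c v).trans q2
    have s4 := h.swc [x1] (c :: v) y x2 z x3 q3 (by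
      have : cs sg [y, x2, z, x3] = cs sg [y] + cs sg [z] + 2 := by
        simp [cs, List.countP_cons, h2, h3]
        ring
      omega)
    have q4 : (x1 :: y :: z :: x2 :: x3 :: c :: v).Perm us :=
      (swm [x1] y z x2 x3 (c :: v)).trans q3
    refine ⟨?_, q4⟩
    simp only [List.cons_append, List.nil_append] at s1 s2 s3 s4
    rw [s1, s2, s3, s4]
    ring
  obtain ⟨a1, a2⟩ := half b1 b2 hp
  have hp' : (x1 :: x2 :: x3 :: b2 :: b1 :: c :: v).Perm us := by
    refine List.Perm.trans ?_ hp
    exact (((swp b2 b1 (c :: v)).cons x3).cons x2).cons x1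
  obtain ⟨a3, a4⟩ := half b2 b1 hp'
  have s5 := h.swc [] (x3 :: c :: v) x1 b1 b2 x2 a2 (by
    have : cs sg [x1, b1, b2, x2] = cs sg [b1] + cs sg [b2] + 2 := by
      simp [cs, List.countP_cons, h1, h2]
      ring
    omega)
  simp only [List.nil_append] at s5
  rw [a1, a3, s5]

/-- All adjacent exchanges after a block of three single letters. -/
theorem AltData.adj3 (h : AltData us sg f) (hlen : 6 ≤ us.length) (x1 x2 x3 : T)
    (h1 : sg x1 = true) (h2 : sg x2 = true) (h3 : sg x3 = true) (a b : T) :
    ∀ (r s : List T), (x1 :: x2 :: x3 :: (r ++ a :: b :: s)).Perm us →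
      f (x1 :: x2 :: x3 :: (r ++ a :: b :: s)) = - f (x1 :: x2 :: x3 :: (r ++ b :: a :: s)) := by
  intro r
  induction r with
  | nil =>
    intro s hp
    refine h.tr3 x1 x2 x3 a b s ?_ hp h1 h2 h3
    rintro rfl
    have := hp.length_eq
    simp at this
    omega
  | cons c r ih =>
    intro s hp
    have e1 := h.rot3 x1 x2 x3 c (r ++ a :: b :: s) (by simp) hp h1 h2 h3
    have hq : (x1 :: x2 :: x3 :: c :: (r ++ b :: a :: s)).Perm us := by
      refine List.Perm.trans ?_ hp
      exact ((((List.Perm.append_left r (swp b a s)).cons c).cons x3).cons x2).cons x1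
    have e2 := h.rot3 x1 x2 x3 c (r ++ b :: a :: s) (by simp) hq h1 h2 h3
    have hp2 : (x1 :: x2 :: x3 :: (r ++ a :: b :: (s ++ [c]))).Perm us := by
      refine List.Perm.trans ?_ hp
      refine ((List.Perm.cons x3 ?_).cons x2).cons x1
      have : r ++ a :: b :: (s ++ [c]) = (r ++ a :: b :: s) ++ [c] := by simp
      rw [this]
      exact List.perm_append_singleton c _
    have e3 := ih (s ++ [c]) hp2
    simp only [List.cons_append]
    rw [e1, e2]
    have t1 : r ++ a :: b :: s ++ [c] = r ++ a :: b :: (s ++ [c]) := by simp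
    have t2 : r ++ b :: a :: s ++ [c] = r ++ b :: a :: (s ++ [c]) := by simp
    rw [t1, t2, e3]

theorem AltData.rep3 (h : AltData us sg f) (hlen : 6 ≤ us.length) (x1 x2 x3 : T)
    (h1 : sg x1 = true) (h2 : sg x2 = true) (h3 : sg x3 = true) (y : T) :
    ∀ (m r s : List T), (x1 :: x2 :: x3 :: (r ++ y :: (m ++ y :: s))).Perm us →
      f (x1 :: x2 :: x3 :: (r ++ y :: (m ++ y :: s))) = 0 := by
  intro m
  induction m with
  | nil =>
    intro r s hp
    have := h.adj3 hlen x1 x2 x3 h1 h2 h3 y y r s (by simpa using hp)
    simp only [List.nil_append]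
    linarith
  | cons c m ih =>
    intro r s hp
    have e1 := h.adj3 hlen x1 x2 x3 h1 h2 h3 y c r (m ++ y :: s) (by simpa using hp)
    have hp2 : (x1 :: x2 :: x3 :: ((r ++ [c]) ++ y :: (m ++ y :: s))).Perm us := by
      refine List.Perm.trans ?_ hp
      refine ((List.Perm.cons x3 ?_).cons x2).cons x1
      simp only [List.append_assoc, List.cons_append, List.nil_append]
      exact List.Perm.append_left r (swp c y _)
    have e2 := ih (r ++ [c]) s hp2
    simp only [List.append_assoc, List.cons_append, List.nil_append] at e2 e1 ⊢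
    rw [e1, e2, neg_zero]

/-- Without adjacent single letters there are not many of them. -/
theorem few_single (w : List T) (hw : ∀ u x y v, w = u ++ x :: y :: v → ¬ (sg x = true ∧ sg y = true)) :
    cs sg w ≤ cn sg w + 1 ∧ (∀ a w', w = a :: w' → sg a = false → cs sg w ≤ cn sg w) := by
  induction w with
  | nil => simp [cs, cn]
  | cons a w ih =>
    have ih' := ih (fun u x y v huv => hw (a :: u) x y v (by simp [huv]))
    by_cases ha : sg a = true
    · have h1 : cs sg (a :: w) = cs sg w + 1 := by simp [cs, List.countP_cons, ha]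
      have h2 : cn sg (a :: w) = cn sg w := by simp [cn, List.countP_cons, ha]
      refine ⟨?_, ?_⟩
      · rw [h1, h2]
        cases w with
        | nil => simp [cs, cn]
        | cons b w =>
          have hb : sg b = false := by
            by_contra hb
            exact hw [] a b w rfl ⟨ha, by simpa using hb⟩
          have := ih'.2 b w rfl hb
          omega
      · intro a' w' haw hs
        have : a = a' := by injection haw
        subst this
        simp [ha] at hs
    · have ha' : sg a = false := by simpa using ha
      have h1 : cs sg (a :: w) = cs sg w := by simp [cs, List.countP_cons, ha']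
      have h2 : cn sg (a :: w) = cn sg w + 1 := by simp [cn, List.countP_cons, ha']
      have := ih'.1
      refine ⟨by omega, fun _ _ _ _ => by omega⟩

/-- Two neighbouring single letters in some rotation. -/
theorem exists_rot (w : List T) (h2 : 2 ≤ w.length) (hw : cn sg w < cs sg w) :
    ∃ l l' x y r, w = l ++ l' ∧ l' ++ l = x :: y :: r ∧ sg x = true ∧ sg y = true := by
  by_cases hadj : ∃ u x y v, w = u ++ x :: y :: v ∧ sg x = true ∧ sg y = true
  · obtain ⟨u, x, y, v, rfl, hx, hy⟩ := hadj
    exact ⟨u, x :: y :: v, x, y, v ++ u, rfl, by simp, hx, hy⟩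
  · push Not at hadj
    have hn : ∀ u x y v, w = u ++ x :: y :: v → ¬ (sg x = true ∧ sg y = true) := by
      intro u x y v he hxy
      exact hadj u x y v he hxy.1 hxy.2
    cases w with
    | nil => simp at h2
    | cons a w =>
      cases w with
      | nil => simp at h2
      | cons b w =>
        have ha : sg a = true := by
          by_contra ha
          have := (few_single (a :: b :: w) hn).2 a (b :: w) rfl (by simpa using ha)
          omega
        have hb : sg b = false := by
          by_contra hb
          exact hn [] a b w rfl ⟨ha, by simpa using hb⟩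
        -- rotate the first letter to the end
        have hc1 : cs sg ((b :: w) ++ [a]) = cs sg (a :: b :: w) :=
          (List.perm_append_singleton a (b :: w)).countP_eq _
        have hc2 : cn sg ((b :: w) ++ [a]) = cn sg (a :: b :: w) :=
          (List.perm_append_singleton a (b :: w)).countP_eq _
        by_cases hadj2 : ∃ u x y v, (b :: w) ++ [a] = u ++ x :: y :: v ∧ sg x = true ∧ sg y = true
        · obtain ⟨u, x, y, v, he, hx, hy⟩ := hadj2
          -- the pair must be the last two letters
          rcases List.eq_nil_or_concat v with hv | ⟨v', d, hv⟩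
          · subst hv
            have h4 : (b :: w) ++ [a] = (u ++ [x]) ++ [y] := by simpa using he
            have h5 := List.append_inj' h4 rfl
            have h6 : y = a := by
              have := h5.2
              injection this with h _
              exact h.symm
            subst h6
            refine ⟨y :: u, [x], x, y, u, ?_, by simp, hx, hy⟩
            rw [h5.1]
            simp
          · exfalso
            rw [List.concat_eq_append] at hv
            subst hv
            have h4 : (b :: w) ++ [a] = (u ++ x :: y :: v') ++ [d] := by simpa using he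
            have h5 := List.append_inj' h4 rfl
            exact hn (a :: u) x y v' (by rw [h5.1]; simp) ⟨hx, hy⟩
        · exfalso
          push Not at hadj2
          have := (few_single ((b :: w) ++ [a]) (fun u x y v he hxy =>
            hadj2 u x y v he hxy.1 hxy.2)).2 b (w ++ [a]) (by simp) hb
          omega

/-- **Alternation lemma.** -/
theorem AltData.zero (h : AltData us sg f) (hlen : 6 ≤ us.length) (hc : cn sg us < cs sg us)
    (y : T) (us' : List T) (hy : us.Perm (y :: y :: us')) (hsy : sg y = false) :
    ∀ w, w.Perm us → f w = 0 := by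
  -- words with a block of three
  have z3 : ∀ x1 x2 x3 r, sg x1 = true → sg x2 = true → sg x3 = true →
      (x1 :: x2 :: x3 :: r).Perm us → f (x1 :: x2 :: x3 :: r) = 0 := by
    intro x1 x2 x3 r h1 h2 h3 hp
    have hne : ∀ x, sg x = true → y ≠ x := by
      rintro x hx rfl
      rw [hsy] at hx
      exact absurd hx (by simp)
    have hp2 := hp.trans hy
    have m1 : y ∈ r := by
      have : y ∈ x1 :: x2 :: x3 :: r := hp2.mem_iff.2 (by simp)
      simpa [hne x1 h1, hne x2 h2, hne x3 h3] using this
    obtain ⟨r1, t, rfl⟩ := List.append_of_mem m1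
    have hp3 : (x1 :: x2 :: x3 :: (r1 ++ t)).Perm (y :: us') := by
      have e : (x1 :: x2 :: x3 :: (r1 ++ y :: t)).Perm (y :: x1 :: x2 :: x3 :: (r1 ++ t)) := by
        have : x1 :: x2 :: x3 :: (r1 ++ y :: t) = (x1 :: x2 :: x3 :: r1) ++ y :: t := by simp
        rw [this]
        refine List.perm_middle.trans ?_
        simp
      exact List.Perm.cons_inv (e.symm.trans hp2)
    have m2 : y ∈ r1 ++ t := by
      have : y ∈ x1 :: x2 :: x3 :: (r1 ++ t) := hp3.mem_iff.2 (by simp)
      simpa [hne x1 h1, hne x2 h2, hne x3 h3] using this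
    rcases List.mem_append.1 m2 with m | m
    · obtain ⟨s1, s2, rfl⟩ := List.append_of_mem m
      have := h.rep3 hlen x1 x2 x3 h1 h2 h3 y s2 s1 t (by simpa using hp)
      simpa using this
    · obtain ⟨s1, s2, rfl⟩ := List.append_of_mem m
      have := h.rep3 hlen x1 x2 x3 h1 h2 h3 y s1 r1 s2 (by simpa using hp)
      simpa using this
  -- words with a block of two and a third single letter
  have z2 : ∀ x1 x2 x3, sg x1 = true → sg x2 = true → sg x3 = true → ∀ (u v : List T),
      (x1 :: x2 :: (u ++ x3 :: v)).Perm us → f (x1 :: x2 :: (u ++ x3 :: v)) = 0 := by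
    intro x1 x2 x3 h1 h2 h3 u
    induction u with
    | nil => exact fun v hp => z3 x1 x2 x3 v h1 h2 h3 hp
    | cons c u ih =>
      intro v hp
      have e1 := h.pass2 x1 x2 c (u ++ x3 :: v) (by simp) hp h1 h2
      have hp2 : (c :: x1 :: x2 :: (u ++ x3 :: v)).Perm us := by
        refine List.Perm.trans ?_ hp
        exact (swp c x1 _).trans ((swp c x2 _).cons x1)
      have e2 := h.cyc [c] (x1 :: x2 :: (u ++ x3 :: v)) (by simpa using hp2)
      have e3 := ih (v ++ [c]) (by
        have := perm_rot (a := [c]) (b := x1 :: x2 :: (u ++ x3 :: v)) (by simpa using hp2)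
        simpa using this)
      simp only [List.cons_append, List.nil_append, List.append_assoc] at e1 e2 e3 ⊢
      rw [e1, e2, e3]
  intro w hw
  have hcs : cs sg w = cs sg us := hw.countP_eq _
  have hcn : cn sg w = cn sg us := hw.countP_eq _
  have hlw : w.length = us.length := hw.length_eq
  obtain ⟨l, l', x1, x2, r, rfl, he, h1, h2⟩ := exists_rot (sg := sg) w (by omega) (by omega)
  rw [h.cyc l l' hw, he]
  have hp : (x1 :: x2 :: r).Perm us := by
    rw [← he]
    exact perm_rot hw
  -- a third single letter
  have hn2 : 2 ≤ cn sg us := by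
    have : cn sg us = cn sg (y :: y :: us') := hy.countP_eq _
    rw [this]
    simp only [cn, List.countP_cons, hsy, Bool.not_false, if_true]
    omega
  have hcr : cs sg (x1 :: x2 :: r) = cs sg r + 2 := by
    simp [cs, List.countP_cons, h1, h2]
  have hcr2 : cs sg (x1 :: x2 :: r) = cs sg us := hp.countP_eq _
  have h3 : 0 < r.countP sg := by
    have : cs sg r = r.countP sg := rfl
    omega
  obtain ⟨x3, hx3, hs3⟩ := List.countP_pos_iff.1 h3
  obtain ⟨u, v, rfl⟩ := List.append_of_mem hx3
  exact z2 x1 x2 x3 h1 h2 (by simpa using hs3) u v hp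

end LieLow
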