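import Mathlib
import Pool.Agent.Helper43.LN.Bridge
import Pool.Agent.LieLow.Alt

/-!
# Cactus bound, ring form

A cyclic functional which vanishes on `gl_n` and whose `2n + e` letters contain `2e - 1` repeated
letters is zero (if `7 e < 2 n + 4`).
-/

namespace LieLow

open Pool.Agent.Helper43.LN

variable {B : Type*}

/-- The list contains `k` repeated letters with mark `true`. -/
def HD (k : ℕ) (l : List (Bool × B)) : Prop :=
  ∃ Y X : List (Bool × B), l.Perm (Y ++ Y ++ X) ∧ (∀ t ∈ Y, t.1 = true) ∧ k ≤ Y.length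

/-- mark as a number -/
def dm (t : Bool × B) : ℕ := if t.1 then 1 else 0

theorem HD.rem {k : ℕ} {t : Bool × B} {l : List (Bool × B)} (h : HD k (t :: l)) :
    HD (k - dm t) l := by
  obtain ⟨Y, X, hp, hY, hk⟩ := h
  have hm : t ∈ Y ++ Y ++ X := hp.mem_iff.1 (by simp)
  by_cases htX : t ∈ X
  · obtain ⟨X1, X2, rfl⟩ := List.append_of_mem htX
    refine ⟨Y, X1 ++ X2, ?_, hY, by omega⟩
    have e : (Y ++ Y ++ (X1 ++ t :: X2)).Perm (t :: (Y ++ Y ++ (X1 ++ X2))) := by
      have : Y ++ Y ++ (X1 ++ t :: X2) = (Y ++ Y ++ X1) ++ t :: X2 := by simp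
      rw [this]
      refine List.perm_middle.trans ?_
      simp
    exact (hp.trans e).cons_inv
  · have htY : t ∈ Y := by
      simpa [htX] using hm
    have ht : t.1 = true := hY t htY
    obtain ⟨Y1, Y2, rfl⟩ := List.append_of_mem htY
    refine ⟨Y1 ++ Y2, t :: X, ?_, ?_, ?_⟩
    · have e1 : (Y1 ++ t :: Y2).Perm (t :: (Y1 ++ Y2)) := List.perm_middle
      have e : (Y1 ++ t :: Y2 ++ (Y1 ++ t :: Y2) ++ X).Perm
          (t :: ((Y1 ++ Y2) ++ (Y1 ++ Y2) ++ (t :: X))) := by
        refine ((e1.append e1).append_right X).trans ?_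
        have : t :: (Y1 ++ Y2) ++ (t :: (Y1 ++ Y2)) ++ X =
          t :: ((Y1 ++ Y2) ++ (t :: ((Y1 ++ Y2) ++ X))) := by simp
        rw [this]
        refine List.Perm.cons t ?_
        have : (Y1 ++ Y2) ++ (Y1 ++ Y2) ++ (t :: X) = (Y1 ++ Y2) ++ ((Y1 ++ Y2) ++ t :: X) := by
          simp
        rw [this]
        exact List.Perm.append_left _ List.perm_middle.symm
      exact (hp.trans e).cons_inv
    · intro s hs
      apply hY
      simp only [List.mem_append, List.mem_cons] at hs ⊢
      tauto
    · have : dm t = 1 := by simp [dm, ht]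
      simp only [List.length_append, List.length_cons] at hk ⊢
      omega

theorem HD.rem4 {k : ℕ} {p a b c : Bool × B} {l : List (Bool × B)}
    (h : HD k (p :: a :: b :: c :: l)) : HD (k - dm p - dm a - dm b - dm c) l :=
  h.rem.rem.rem.rem

theorem HD.perm {k : ℕ} {l l' : List (Bool × B)} (hl : l.Perm l') (h : HD k l) : HD k l' := by
  obtain ⟨Y, X, hp, hY, hk⟩ := h
  exact ⟨Y, X, hl.symm.trans hp, hY, hk⟩

theorem exists_perm_map {α β : Type*} (g : α → β) {l l2 : List β} (h : l2.Perm l) :
    ∀ us : List α, us.map g = l → ∃ us' : List α, us'.Perm us ∧ us'.map g = l2 := by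
  induction h with
  | nil => exact fun us hus => ⟨us, List.Perm.refl _, hus⟩
  | cons x _ ih =>
    intro us hus
    cases us with
    | nil => simp at hus
    | cons u us =>
      simp only [List.map_cons, List.cons.injEq] at hus
      obtain ⟨us', h1, h2⟩ := ih us hus.2
      exact ⟨u :: us', h1.cons u, by simp [hus.1, h2]⟩
  | swap x y l =>
    intro us hus
    cases us with
    | nil => simp at hus
    | cons u us =>
      cases us with
      | nil => simp at hus
      | cons v us =>
        simp only [List.map_cons, List.cons.injEq] at hus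
        exact ⟨v :: u :: us, List.Perm.swap _ _ _, by simp [hus.1, hus.2.1, hus.2.2]⟩
  | trans _ _ ih1 ih2 =>
    intro us hus
    obtain ⟨us1, h1, h2⟩ := ih2 us hus
    obtain ⟨us2, h3, h4⟩ := ih1 us1 h2
    exact ⟨us2, h3.trans h1, h4⟩

variable [Ring B]

theorem core (τ : B → ℚ) (hadd : ∀ x y, τ (x + y) = τ x + τ y)
    (hcyc : ∀ x y, τ (x * y) = τ (y * x)) (m e : ℕ) (he : 1 ≤ e) (ys0 xs0 : List B)
    (h7 : 7 * e < 2 * (m + 1) + 4) (h6 : 6 ≤ 2 * (m + 1) + e) (hys : 2 * e ≤ ys0.length + 1)
    (hlen : 2 * ys0.length + xs0.length = 2 * (m + 1) + e)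
    (hCV : CV τ (m + 1) (ys0 ++ ys0 ++ xs0))
    (H : ∀ (C : B) (r : List (Bool × B)), r.length + 4 = 2 * (m + 1) + e →
      HD (2 * e - 1 - 2) r → CV τ m (C :: r.map Prod.snd) →
      τ ((C :: r.map Prod.snd).prod) = 0) :
    ∀ w : List B, w.Perm (ys0 ++ ys0 ++ xs0) → τ w.prod = 0 := by
  set ys := ys0.take (2 * e - 1) with hysd
  set ys2 := ys0.drop (2 * e - 1) with hys2d
  have hsplit : ys0 = ys ++ ys2 := (List.take_append_drop _ _).symm
  have hysl : ys.length = 2 * e - 1 := by
    rw [hysd, List.length_take]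
    omega
  set xs := ys2 ++ ys2 ++ xs0 with hxs
  have hperm0 : (ys ++ ys ++ xs).Perm (ys0 ++ ys0 ++ xs0) := by
    rw [hsplit, hxs]
    have e1 : ys ++ ys ++ (ys2 ++ ys2 ++ xs0) = ys ++ ((ys ++ ys2) ++ (ys2 ++ xs0)) := by simp
    have e2 : ys ++ ys2 ++ (ys ++ ys2) ++ xs0 = ys ++ ((ys2 ++ ys) ++ (ys2 ++ xs0)) := by simp
    rw [e1, e2]
    exact List.Perm.append_left _ (List.Perm.append_right _ List.perm_append_comm)
  have hxl : 2 * ys.length + xs.length = 2 * (m + 1) + e := by
    have := hperm0.length_eq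
    simp only [List.length_append] at this
    omega
  set yt : List (Bool × B) := ys.map (fun y => (true, y)) with hyt
  set xt : List (Bool × B) := xs.map (fun x => (false, x)) with hxt
  set us : List (Bool × B) := yt ++ yt ++ xt with hus
  have husm : us.map Prod.snd = ys ++ ys ++ xs := by
    simp [hus, hyt, hxt, Function.comp_def]
  have husl : us.length = 2 * (m + 1) + e := by
    have : us.length = (us.map Prod.snd).length := by simp
    rw [this, husm]
    simp only [List.length_append]
    omega
  have hHD : HD (2 * e - 1) us := by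
    refine ⟨yt, xt, List.Perm.refl _, ?_, ?_⟩
    · intro t ht
      simp only [hyt, List.mem_map] at ht
      obtain ⟨y, _, rfl⟩ := ht
      rfl
    · simp [hyt, hysl]
  set sg : Bool × B → Bool := fun t => !t.1 with hsg
  set f : List (Bool × B) → ℚ := fun l => τ ((l.map Prod.snd).prod) with hf
  have hA : AltData us sg f := by
    refine ⟨?_, ?_⟩
    · intro l l' _
      simp only [hf, List.map_append, List.prod_append]
      exact hcyc _ _
    · intro p a b c r hp hc
      have hHD2 : HD (2 * e - 1 - 2) r := by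
        have h1 := (hHD.perm hp.symm).rem4
        have h2 : dm p + dm a + dm b + dm c ≤ 2 := by
          have h3 : cs sg [p, a, b, c] + (dm p + dm a + dm b + dm c) = 4 := by
            obtain ⟨p1, p2⟩ := p
            obtain ⟨a1, a2⟩ := a
            obtain ⟨b1, b2⟩ := b
            obtain ⟨c1, c2⟩ := c
            cases p1 <;> cases a1 <;> cases b1 <;> cases c1 <;> simp [cs, sg, dm]
          omega
        obtain ⟨Y, X, q1, q2, q3⟩ := h1
        exact ⟨Y, X, q1, q2, by omega⟩
      have hC : CV τ (m + 1) (p.2 :: a.2 :: b.2 :: c.2 :: r.map Prod.snd) := by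
        refine CV_perm ?_ hCV
        have h1 := (hp.map Prod.snd)
        rw [husm] at h1
        exact (h1.trans hperm0).symm
      have hC2 := CV_cactus hcyc a.2 b.2 c.2 p.2 (r.map Prod.snd) hC
      have hr : r.length + 4 = 2 * (m + 1) + e := by
        have := hp.length_eq
        simp only [List.length_cons] at this
        omega
      have h0 := H _ r hr hHD2 hC2
      have e0 : (p.2 * (a.2 * b.2 + b.2 * a.2) * c.2 :: r.map Prod.snd).prod =
          ((p :: a :: b :: c :: r).map Prod.snd).prod +
          ((p :: b :: a :: c :: r).map Prod.snd).prod := by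
        simp only [List.map_cons, List.prod_cons]
        noncomm_ring
      rw [e0, hadd] at h0
      simp only [hf]
      linarith
  obtain ⟨y, ys', hyy⟩ : ∃ y ys', ys = y :: ys' := by
    cases h : ys with
    | nil =>
      rw [h] at hysl
      simp at hysl
      omega
    | cons y ys' => exact ⟨y, ys', rfl⟩
  have hcs : cs sg us = xs.length := by
    simp only [hus, cs, List.countP_append, hyt, hxt, List.countP_map]
    simp [sg, Function.comp_def, List.countP_false, List.countP_true]
  have hcn : cn sg us = 2 * ys.length := by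
    simp only [hus, cn, List.countP_append, hyt, hxt, List.countP_map]
    simp [sg, Function.comp_def, List.countP_false, List.countP_true]
    ring
  have hrep : us.Perm ((true, y) :: (true, y) ::
      (ys'.map (fun y => (true, y)) ++ ys'.map (fun y => (true, y)) ++ xt)) := by
    rw [hus, hyt, hyy]
    simp only [List.map_cons, List.cons_append, List.append_assoc]
    refine List.Perm.cons _ ?_
    refine List.perm_middle.trans ?_
    exact List.Perm.refl _
  have hz := hA.zero (by omega) (by rw [hcs, hcn]; omega) (true, y) _ hrep rfl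
  intro w hw
  obtain ⟨w', h1, h2⟩ := exists_perm_map Prod.snd (hw.trans hperm0.symm) us husm
  have := hz w' h1
  simp only [hf, h2] at this
  exact this

/-- **Cactus bound, ring form.** -/
theorem claim (τ : B → ℚ) (hadd : ∀ x y, τ (x + y) = τ x + τ y)
    (hcyc : ∀ x y, τ (x * y) = τ (y * x)) (e : ℕ) (he : 1 ≤ e) :
    ∀ (n : ℕ) (ys xs : List B), 3 ≤ n → 7 * e < 2 * n + 4 → 2 * e ≤ ys.length + 1 →
      2 * ys.length + xs.length = 2 * n + e → CV τ n (ys ++ ys ++ xs) →
      ∀ w : List B, w.Perm (ys ++ ys ++ xs) → τ w.prod = 0 := by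
  induction e, he using Nat.le_induction with
  | base =>
    intro n ys0 xs0 hn h7 hys hlen hCV
    obtain ⟨m, rfl⟩ : ∃ m, n = m + 1 := ⟨n - 1, by omega⟩
    refine core τ hadd hcyc m 1 le_rfl ys0 xs0 h7 (by omega) hys hlen hCV ?_
    intro C r hr _ hC
    exact CV_stair (by omega) _ hC (by simp; omega)
  | succ e he ih =>
    intro n ys0 xs0 hn h7 hys hlen hCV
    obtain ⟨m, rfl⟩ : ∃ m, n = m + 1 := ⟨n - 1, by omega⟩
    refine core τ hadd hcyc m (e + 1) (by omega) ys0 xs0 h7 (by omega) hys hlen hCV ?_
    intro C r hr hHD hC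
    obtain ⟨Y, X, h1, h2, h3⟩ := hHD
    have hp : (C :: r.map Prod.snd).Perm
        (Y.map Prod.snd ++ Y.map Prod.snd ++ (C :: X.map Prod.snd)) := by
      have h4 : (r.map Prod.snd).Perm (Y.map Prod.snd ++ Y.map Prod.snd ++ X.map Prod.snd) := by
        have := h1.map Prod.snd
        simpa using this
      exact (h4.cons C).trans List.perm_middle.symm
    have hl := h1.length_eq
    simp only [List.length_append] at hl
    refine ih m (Y.map Prod.snd) (C :: X.map Prod.snd) (by omega) (by omega) ?_ ?_ ?_ _ hp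
    · simp only [List.length_map]
      omega
    · simp only [List.length_map, List.length_cons]
      omega
    · exact CV_perm hp hC

end LieLow
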