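import Mathlib
import Pool.Agent.Helper22.LB.Words
import Pool.Agent.Helper22.LB.Root
import Pool.Agent.LieLow.Claim

/-!
# Functions which are symmetric in many disjoint pairs of letters
-/

namespace LieLow

open Pool.Agent.Helper43.LN Pool.Agent.Helper22.LB

variable {N : ℕ}

/-- words -/
def Wd (N : ℕ) (w : List (Fin N)) : Prop := w.Perm (List.finRange N)

theorem Wd.nodup {w : List (Fin N)} (h : Wd N w) : w.Nodup :=
  h.nodup_iff.2 (List.nodup_finRange N)

theorem Wd.mem {w : List (Fin N)} (h : Wd N w) (v : Fin N) : v ∈ w :=
  h.mem_iff.2 (List.mem_finRange v)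

theorem Wd.map {w : List (Fin N)} (h : Wd N w) (s : Equiv.Perm (Fin N)) : Wd N (w.map s) := by
  have h1 : (w.map s).Nodup := h.nodup.map s.injective
  refine (List.perm_ext_iff_of_nodup h1 (List.nodup_finRange N)).2 ?_
  intro a
  simp only [List.mem_map, List.mem_finRange, iff_true]
  exact ⟨s.symm a, h.mem _, by simp⟩

theorem Wd.exists_perm {w w' : List (Fin N)} (h : Wd N w) (h' : Wd N w') :
    ∃ s : Equiv.Perm (Fin N), w' = w.map s := by
  have hl : w.length = w'.length := h.length_eq.trans h'.length_eq.symm
  have key : ∀ {u : List (Fin N)}, Wd N u → ∃ s : Equiv.Perm (Fin N), u = (List.finRange N).map s := by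
    intro u hu
    have hlen : u.length = N := by
      have := hu.length_eq
      simpa using this
    have hinj : Function.Injective (fun i : Fin N => u.get (i.cast hlen.symm)) := by
      intro i j hij
      have := List.nodup_iff_injective_get.mp hu.nodup hij
      simpa [Fin.ext_iff] using this
    refine ⟨Equiv.ofBijective _ (Finite.injective_iff_bijective.mp hinj), ?_⟩
    apply List.ext_getElem
    · simp [hlen]
    · intro i h1 h2
      simp
  obtain ⟨s, rfl⟩ := key h
  obtain ⟨t, rfl⟩ := key h'
  refine ⟨s.symm.trans t, ?_⟩
  rw [List.map_map]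
  congr 1
  funext i
  simp

/-- Collapse the second letter of every pair to the first one. -/
def col : List (Fin N × Fin N) → Fin N → Fin N
  | [], v => v
  | p :: ps, v => if v = p.2 then p.1 else col ps v

/-- the letters of the pairs -/
def lets (ps : List (Fin N × Fin N)) : List (Fin N) := ps.flatMap (fun p => [p.1, p.2])

theorem lets_cons (p : Fin N × Fin N) (ps : List (Fin N × Fin N)) :
    lets (p :: ps) = p.1 :: p.2 :: lets ps := rfl

theorem col_not_mem (ps : List (Fin N × Fin N)) (v : Fin N) (h : v ∉ lets ps) : col ps v = v := by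
  induction ps with
  | nil => rfl
  | cons p ps ih =>
    rw [lets_cons] at h
    simp only [List.mem_cons, not_or] at h
    rw [col, if_neg h.2.1, ih h.2.2]

theorem col_mem (ps : List (Fin N × Fin N)) (v : Fin N) (h : v ∈ lets ps) : col ps v ∈ lets ps := by
  induction ps with
  | nil => simp [lets] at h
  | cons p ps ih =>
    rw [lets_cons] at h ⊢
    rw [col]
    by_cases hv : v = p.2
    · rw [if_pos hv]; simp
    · rw [if_neg hv]
      by_cases hm : v ∈ lets ps
      · simp [ih hm]
      · rw [col_not_mem ps v hm]
        simp only [List.mem_cons] at h ⊢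
        tauto

theorem col_fix {f : List (Fin N) → ℚ} : ∀ (ps : List (Fin N × Fin N)), (lets ps).Nodup →
    (∀ p ∈ ps, ∀ w, Wd N w → f (w.map (Equiv.swap p.1 p.2)) = f w) →
    ∀ s : Equiv.Perm (Fin N), (∀ v, col ps (s v) = col ps v) → ∀ w, Wd N w → f (w.map s) = f w := by
  intro ps
  induction ps with
  | nil =>
    intro _ _ s hs w _
    have : (s : Fin N → Fin N) = id := by
      funext v
      simpa [col] using hs v
    rw [this, List.map_id]
  | cons p ps ih =>
    obtain ⟨a, b⟩ := p
    intro hnd hsym
    rw [lets_cons] at hnd
    simp only [List.nodup_cons, List.mem_cons, not_or] at hnd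
    obtain ⟨⟨hab, ha⟩, hb, hnd'⟩ := hnd
    have ih' := ih hnd' (fun p hp => hsym p (by simp [hp]))
    have ca : col ps a = a := col_not_mem ps a ha
    have cb : col ps b = b := col_not_mem ps b hb
    -- values in the pair
    have hval : ∀ v, col ((a, b) :: ps) v = a ↔ v = a ∨ v = b := by
      intro v
      rw [col]
      by_cases hv : v = b
      · simp [hv]
      · simp only [hv, if_false, or_false]
        constructor
        · intro h
          by_cases hm : v ∈ lets ps
          · have := col_mem ps v hm
            rw [h] at this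
            exact absurd this ha
          · rwa [col_not_mem ps v hm] at h
        · rintro rfl
          exact ca
    -- the first case
    have case1 : ∀ s : Equiv.Perm (Fin N), (∀ v, col ((a, b) :: ps) (s v) = col ((a, b) :: ps) v) →
        s a = a → ∀ w, Wd N w → f (w.map s) = f w := by
      intro s hs hsa
      have hsb : s b = b := by
        have h1 : col ((a, b) :: ps) (s b) = a := by
          rw [hs b]
          exact (hval b).2 (Or.inr rfl)
        rcases (hval (s b)).1 h1 with h | h
        · exfalso
          apply hab
          apply s.injective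
          rw [hsa, h]
        · exact h
      refine ih' s ?_
      intro v
      by_cases hva : v = a
      · rw [hva, hsa]
      · by_cases hvb : v = b
        · rw [hvb, hsb]
        · have h1 := hs v
          have h2 : s v ≠ b := by
            intro h
            apply hvb
            apply s.injective
            rw [h, hsb]
          rw [col, col] at h1
          simpa [if_neg h2, if_neg hvb] using h1
    intro s hs w hw
    have h1 : col ((a, b) :: ps) (s a) = a := by
      rw [hs a]
      exact (hval a).2 (Or.inl rfl)
    rcases (hval (s a)).1 h1 with h | h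
    · exact case1 s hs h w hw
    · -- compose with the exchange
      have h2 : f (w.map (s.trans (Equiv.swap a b))) = f w := by
        refine case1 (s.trans (Equiv.swap a b)) ?_ (by simp [h]) w hw
        intro v
        rw [← hs v]
        simp only [Equiv.trans_apply]
        by_cases hva : s v = a
        · rw [hva, Equiv.swap_apply_left, (hval b).2 (Or.inr rfl), (hval a).2 (Or.inl rfl)]
        · by_cases hvb : s v = b
          · rw [hvb, Equiv.swap_apply_right, (hval b).2 (Or.inr rfl), (hval a).2 (Or.inl rfl)]
          · rw [Equiv.swap_apply_of_ne_of_ne hva hvb]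
      have h3 := hsym (a, b) (by simp) (w.map s) (hw.map s)
      rw [List.map_map] at h3
      rw [← h2, ← h3]
      rfl

/-- The function on collapsed words. -/
noncomputable def cfun (ps : List (Fin N × Fin N)) (f : List (Fin N) → ℚ) (m : List (Fin N)) : ℚ :=
  open Classical in
  if h : ∃ l : List (Fin N), Wd N l ∧ l.map (col ps) = m then f h.choose else 0

theorem cfun_map {ps : List (Fin N × Fin N)} {f : List (Fin N) → ℚ} (hnd : (lets ps).Nodup)
    (hsym : ∀ p ∈ ps, ∀ w, Wd N w → f (w.map (Equiv.swap p.1 p.2)) = f w)
    (l : List (Fin N)) (hl : Wd N l) : cfun ps f (l.map (col ps)) = f l := by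
  have h : ∃ l' : List (Fin N), Wd N l' ∧ l'.map (col ps) = l.map (col ps) := ⟨l, hl, rfl⟩
  rw [cfun, dif_pos h]
  obtain ⟨h1, h2⟩ := h.choose_spec
  obtain ⟨s, hs⟩ := hl.exists_perm h1
  rw [hs] at h2 ⊢
  refine col_fix ps hnd hsym s ?_ l hl
  intro v
  rw [List.map_map] at h2
  have := List.map_inj_left.1 h2 v (hl.mem v)
  simpa using this

theorem cfun_cyc {ps : List (Fin N × Fin N)} {f : List (Fin N) → ℚ} (hnd : (lets ps).Nodup)
    (hsym : ∀ p ∈ ps, ∀ w, Wd N w → f (w.map (Equiv.swap p.1 p.2)) = f w)
    (hcyc : ∀ l l', Wd N (l ++ l') → f (l ++ l') = f (l' ++ l)) (m1 m2 : List (Fin N)) :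
    cfun ps f (m1 ++ m2) = cfun ps f (m2 ++ m1) := by
  by_cases h : ∃ l : List (Fin N), Wd N l ∧ l.map (col ps) = m1 ++ m2
  · obtain ⟨l, hl, hm⟩ := h
    obtain ⟨l1, l2, rfl, rfl, rfl⟩ := List.map_eq_append_iff.1 hm
    rw [← List.map_append, ← List.map_append, cfun_map hnd hsym _ hl,
      cfun_map hnd hsym _ (List.perm_append_comm.trans hl)]
    exact hcyc l1 l2 hl
  · have h' : ¬ ∃ l : List (Fin N), Wd N l ∧ l.map (col ps) = m2 ++ m1 := by
      rintro ⟨l, hl, hm⟩
      obtain ⟨l1, l2, rfl, rfl, rfl⟩ := List.map_eq_append_iff.1 hm
      exact h ⟨l2 ++ l1, List.perm_append_comm.trans hl, by simp⟩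
    rw [cfun, cfun, dif_neg h, dif_neg h']

theorem lets_perm (ps : List (Fin N × Fin N)) :
    (lets ps).Perm (ps.map Prod.fst ++ ps.map Prod.snd) := by
  induction ps with
  | nil => simp [lets]
  | cons p ps ih =>
    rw [lets_cons]
    simp only [List.map_cons, List.cons_append]
    refine List.Perm.cons _ ?_
    exact (List.Perm.cons p.2 ih).trans List.perm_middle.symm

/-- **Cactus bound**: a cyclic function which vanishes on `gl_n` and is symmetric in `2e - 1`
disjoint pairs of letters is zero. -/
theorem pairs_zero {n e : ℕ} (he : 1 ≤ e) (hn : 3 ≤ n) (h7 : 7 * e < 2 * n + 4)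
    (hN : N = 2 * n + e) (f : List (Fin N) → ℚ)
    (hcyc : ∀ l l', Wd N (l ++ l') → f (l ++ l') = f (l' ++ l))
    (hv : ∀ z, ∀ x : Fin N → Matrix (Fin n) (Fin n) ℚ,
      evr x (Finset.univ.erase z).card (Finset.univ.erase z) (fun l => f (z :: l)) = 0)
    (ps : List (Fin N × Fin N)) (hps : ps.length + 1 = 2 * e) (hnd : (lets ps).Nodup)
    (hsym : ∀ p ∈ ps, ∀ w, Wd N w → f (w.map (Equiv.swap p.1 p.2)) = f w) :
    ∀ w, Wd N w → f w = 0 := by
  set B := NC ℚ (Fin N) with hB
  set τ : B →ₗ[ℚ] ℚ := lext (cfun ps f) with hτ
  set u : Fin N → B := fun v => mon ℚ [col ps v] with hu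
  have hprod : ∀ l : List (Fin N), (l.map u).prod = mon ℚ (l.map (col ps)) := by
    intro l
    induction l with
    | nil => rfl
    | cons a l ih => rw [List.map_cons, List.prod_cons, ih, List.map_cons, mon_cons]
  have hτw : ∀ l : List (Fin N), l.Perm (List.finRange N) → τ ((l.map u).prod) = f l := by
    intro l hl
    rw [hprod, hτ, lext_mon, cfun_map hnd hsym l hl]
  have hτc : ∀ x y : B, τ (x * y) = τ (y * x) := by
    intro x y
    induction x using nc_ind with
    | zero => simp
    | add f g hf hg => rw [add_mul, mul_add, map_add, map_add, hf, hg]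
    | smul r l =>
      induction y using nc_ind with
      | zero => simp
      | add f g hf hg => rw [add_mul, mul_add, map_add, map_add, hf, hg]
      | smul r' l' =>
        rw [smul_mul_smul_comm, smul_mul_smul_comm, map_smul, map_smul, ← mon_append,
          ← mon_append, hτ, lext_mon, lext_mon, cfun_cyc hnd hsym hcyc l l', mul_comm r r']
  have hCV : CV (fun x => τ x) n ((List.finRange N).map u) := by
    refine CV_of_evr f (List.finRange N) (List.nodup_finRange N) ?_ u τ hτw
    intro z _ x
    have e : (List.finRange N).toFinset = Finset.univ := by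
      ext a
      simp
    rw [e]
    exact hv z x
  -- the list of letters
  obtain ⟨rest, hrest⟩ : ∃ rest : List (Fin N),
      (List.finRange N).Perm (ps.map Prod.fst ++ ps.map Prod.snd ++ rest) := by
    have h1 := lets_perm ps
    have h2 : (ps.map Prod.fst ++ ps.map Prod.snd).Nodup := h1.nodup_iff.1 hnd
    have h3 : ((ps.map Prod.fst ++ ps.map Prod.snd : List (Fin N)) : Multiset (Fin N)) ≤
        ((List.finRange N : List (Fin N)) : Multiset (Fin N)) := by
      rw [Multiset.coe_le]
      exact List.subperm_of_subset h2 (fun a _ => List.mem_finRange a)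
    obtain ⟨t, ht⟩ := Multiset.le_iff_exists_add.1 h3
    obtain ⟨rest, rfl⟩ := Quot.exists_rep t
    refine ⟨rest, ?_⟩
    rw [← Multiset.coe_eq_coe, ht, ← Multiset.coe_add]
    rfl
  have hu2 : (ps.map Prod.snd).map u = (ps.map Prod.fst).map u := by
    rw [List.map_map, List.map_map]
    apply List.map_congr_left
    intro p hp
    simp only [Function.comp_apply, hu]
    congr 2
    -- both collapse to the first letter
    have key : ∀ qs : List (Fin N × Fin N), (lets qs).Nodup → p ∈ qs →
        col qs p.2 = p.1 ∧ col qs p.1 = p.1 := by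
      intro qs
      induction qs with
      | nil => simp
      | cons r qs ih =>
        intro hq hpq
        rw [lets_cons] at hq
        simp only [List.nodup_cons, List.mem_cons, not_or] at hq
        obtain ⟨⟨hab, ha⟩, hb, hnd'⟩ := hq
        rcases List.mem_cons.1 hpq with h | h
        · subst h
          refine ⟨by rw [col, if_pos rfl], ?_⟩
          rw [col, if_neg hab, col_not_mem qs _ ha]
        · have hm1 : p.1 ∈ lets qs := by
            simp only [lets, List.mem_flatMap]
            exact ⟨p, h, by simp⟩
          have hm2 : p.2 ∈ lets qs := by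
            simp only [lets, List.mem_flatMap]
            exact ⟨p, h, by simp⟩
          have hh := ih hnd' h
          refine ⟨?_, ?_⟩
          · rw [col, if_neg (by rintro h5; rw [h5] at hm2; exact hb hm2)]
            exact hh.1
          · rw [col, if_neg (by rintro h5; rw [h5] at hm1; exact hb hm1)]
            exact hh.2
    obtain ⟨k1, k2⟩ := key ps hnd hp
    rw [k1, k2]
  set ys := (ps.map Prod.fst).map u with hys
  set xs := rest.map u with hxs
  have hperm : ((List.finRange N).map u).Perm (ys ++ ys ++ xs) := by
    have := hrest.map u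
    rw [List.map_append, List.map_append, hu2] at this
    exact this
  intro w hw
  have hc := claim (fun x => τ x) (fun x y => map_add τ x y) hτc e he n ys xs hn h7
    (by simp [hys]; omega) (by
      have := hperm.length_eq
      simp only [List.length_map, List.length_finRange, List.length_append] at this
      omega) (CV_perm hperm hCV) (w.map u) ((List.Perm.map u hw).trans hperm)
  rw [← hτw w hw]
  exact hc

end LieLow
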