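import Pool.Agent.LieLow.YoungDef

/-!
# MP_a9fd20 (LieLow): from symmetric pairs to an antisymmetrizer (theorem `young`)

Author: helper53 (statement by helper29).

Let `F` be a function on the words in `Fin N` which does not vanish on the permutations of
`List.finRange N`.  If no nonzero element of the span of the translates of `F` is symmetric in
`K + 1` disjoint pairs (`4 (K + 1) < N`), then the antisymmetrizer of some set of size `N - K` does
not kill `F`.

Proof.  Choose `f ≠ 0` in the span and a colouring `c` such that `f` is symmetric in each class and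
the sum of squares of the class sizes is maximal.  Then (star) `(1 + ∑_{b ∈ B} (y b)) f = 0` for each
class `B` and each `y ∉ B` in a class of size at most `|B|`.  If `T` is a set of points in classes
different from the class `B` of `a` and of sizes `≤ |B|`, then
`∑_{b ∈ B} (a b) Alt_{T ∪ a} f = (|B| + |T|) Alt_T f`.  So there are `T` of all sizes up to the number
of classes with `Alt_T f ≠ 0`.  If the number of classes is less than `N - K`, then a similar minimal
choice gives `K + 1` disjoint pairs.
-/

namespace LieLow

open Equiv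

section abs

variable {N : ℕ} {V : Type*} [AddCommGroup V] [DistribMulAction (Perm (Fin N)) V]

/-- a class of a colouring -/
def cls (c : Fin N → Fin N) (k : Fin N) : Finset (Fin N) := Finset.univ.filter (fun x => c x = k)

theorem mem_cls {c : Fin N → Fin N} {k x : Fin N} : x ∈ cls c k ↔ c x = k := by
  simp [cls]

/-- `f` is symmetric in each class -/
def Inv (c : Fin N → Fin N) (f : V) : Prop := ∀ a b, c a = c b → swap a b • f = f

/-- the operator `1 + ∑_{b ∈ B} (y b)` -/
def mv (c : Fin N → Fin N) (y k : Fin N) (f : V) : V := f + ∑ b ∈ cls c k, swap y b • f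

theorem sw_conj (s : Perm (Fin N)) (x y : Fin N) : s * swap x y = swap (s x) (s y) * s := by
  rw [Equiv.swap_apply_apply]; group

theorem mv_sw {c : Fin N → Fin N} {f : V} (h : Inv c f) {y k : Fin N} (hy : c y ≠ k) {b : Fin N}
    (hb : c b = k) : swap y b • mv c y k f = mv c y k f := by
  have hb' : b ∈ cls c k := mem_cls.2 hb
  unfold mv
  rw [← Finset.add_sum_erase _ _ hb', smul_add, smul_add, smul_smul, Equiv.swap_mul_self, one_smul,
    Finset.smul_sum]
  have h1 : ∑ x ∈ (cls c k).erase b, swap y b • swap y x • f
      = ∑ x ∈ (cls c k).erase b, swap y x • f := by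
    refine Finset.sum_congr rfl ?_
    intro x hx
    have hx1 : x ≠ b := Finset.ne_of_mem_erase hx
    have hx2 : c x = k := mem_cls.1 (Finset.mem_of_mem_erase hx)
    have hyx : y ≠ x := by rintro rfl; exact hy hx2
    have hyb : y ≠ b := by rintro rfl; exact hy hb
    have h2 : swap y b * swap y x = swap y x * swap x b := by
      rw [sw_conj (swap y x) x b, swap_apply_right, swap_apply_of_ne_of_ne hyb.symm hx1.symm]
    rw [smul_smul, h2, ← smul_smul, h x b (by rw [hx2, hb])]
  rw [h1]
  abel

theorem mv_sw' {c : Fin N → Fin N} {f : V} (h : Inv c f) {y k : Fin N} {a b : Fin N}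
    (ha : a ≠ y) (hb : b ≠ y) (hab : c a = c b) : swap a b • mv c y k f = mv c y k f := by
  unfold mv
  rw [smul_add, h a b hab, Finset.smul_sum]
  congr 1
  have h1 : ∀ x, c (swap a b x) = c x := by
    intro x
    rcases eq_or_ne x a with rfl | hxa
    · rw [swap_apply_left, hab]
    · rcases eq_or_ne x b with rfl | hxb
      · rw [swap_apply_right, hab]
      · rw [swap_apply_of_ne_of_ne hxa hxb]
  refine Finset.sum_equiv (swap a b) ?_ ?_
  · intro x
    rw [mem_cls, mem_cls, h1]
  · intro x hx
    rw [smul_smul, sw_conj, swap_apply_of_ne_of_ne ha.symm hb.symm, ← smul_smul, h a b hab]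

theorem mv_inv {c : Fin N → Fin N} {f : V} (h : Inv c f) {y k : Fin N} (hy : c y ≠ k) :
    Inv (Function.update c y k) (mv c y k f) := by
  intro a b hab
  rcases eq_or_ne a b with rfl | hne
  · rw [swap_self]; exact one_smul _ _
  rcases eq_or_ne a y with rfl | hay
  · rw [Function.update_self, Function.update_of_ne hne.symm] at hab
    exact mv_sw h hy hab.symm
  · rcases eq_or_ne b y with rfl | hby
    · rw [Function.update_self, Function.update_of_ne hay] at hab
      rw [swap_comm]
      exact mv_sw h hy hab
    · rw [Function.update_of_ne hay, Function.update_of_ne hby] at hab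
      exact mv_sw' h hay hby hab

/-- the potential -/
def pot (c : Fin N → Fin N) : ℕ := ∑ k, (cls c k).card ^ 2

theorem cls_update_self {c : Fin N → Fin N} {y k : Fin N} :
    cls (Function.update c y k) k = insert y (cls c k) := by
  ext x
  rw [Finset.mem_insert, mem_cls, mem_cls]
  rcases eq_or_ne x y with rfl | hx
  · simp
  · rw [Function.update_of_ne hx]; simp [hx]

theorem cls_update_old {c : Fin N → Fin N} {y k : Fin N} (hy : c y ≠ k) :
    cls (Function.update c y k) (c y) = (cls c (c y)).erase y := by
  ext x
  rw [Finset.mem_erase, mem_cls, mem_cls]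
  rcases eq_or_ne x y with rfl | hx
  · simp [hy.symm]
  · rw [Function.update_of_ne hx]; simp [hx]

theorem cls_update_other {c : Fin N → Fin N} {y k l : Fin N} (hl : l ≠ k) (hl' : l ≠ c y) :
    cls (Function.update c y k) l = cls c l := by
  ext x
  rw [mem_cls, mem_cls]
  rcases eq_or_ne x y with rfl | hx
  · simp [hl.symm, hl'.symm]
  · rw [Function.update_of_ne hx]

theorem pot_mv {c : Fin N → Fin N} {y k : Fin N} (hy : c y ≠ k) :
    pot (Function.update c y k) + 2 * (cls c (c y)).card = pot c + 2 * (cls c k).card + 2 := by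
  unfold pot
  have h1 : ∀ (f : Fin N → ℕ), ∑ l, f l
      = f k + (f (c y) + ∑ l ∈ (Finset.univ.erase k).erase (c y), f l) := by
    intro f
    rw [← Finset.add_sum_erase Finset.univ f (Finset.mem_univ k),
      ← Finset.add_sum_erase (Finset.univ.erase k) f
        (Finset.mem_erase.2 ⟨hy, Finset.mem_univ _⟩)]
  rw [h1, h1, cls_update_self, cls_update_old hy]
  have h2 : ∑ l ∈ (Finset.univ.erase k).erase (c y), (cls (Function.update c y k) l).card ^ 2
      = ∑ l ∈ (Finset.univ.erase k).erase (c y), (cls c l).card ^ 2 := by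
    refine Finset.sum_congr rfl ?_
    intro l hl
    rw [Finset.mem_erase, Finset.mem_erase] at hl
    rw [cls_update_other hl.2.1 hl.1]
  rw [h2]
  have h3 : y ∉ cls c k := by rw [mem_cls]; exact hy
  have h4 : y ∈ cls c (c y) := mem_cls.2 rfl
  rw [Finset.card_insert_of_notMem h3, Finset.card_erase_of_mem h4]
  have h5 : 1 ≤ (cls c (c y)).card := Finset.card_pos.2 ⟨y, h4⟩
  obtain ⟨m, hm⟩ := Nat.exists_eq_add_of_le h5
  rw [hm]
  have : 1 + m - 1 = m := by omega
  rw [this]
  ring

theorem pot_le (c : Fin N → Fin N) : pot c ≤ N * N ^ 2 := by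
  unfold pot
  calc ∑ k, (cls c k).card ^ 2 ≤ ∑ _k : Fin N, N ^ 2 := by
        refine Finset.sum_le_sum fun k _ => ?_
        refine Nat.pow_le_pow_left ?_ 2
        exact (Finset.card_le_univ _).trans (by simp)
    _ = N * N ^ 2 := by simp

/-- the permutations supported in `T` -/
def SS (T : Finset (Fin N)) : Finset (Perm (Fin N)) :=
  Finset.univ.filter (fun s : Equiv.Perm (Fin N) => ∀ x, x ∉ T → s x = x)

theorem mem_SS {T : Finset (Fin N)} {s : Perm (Fin N)} : s ∈ SS T ↔ ∀ x, x ∉ T → s x = x := by
  simp [SS]

/-- the antisymmetrizer -/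
def alt (T : Finset (Fin N)) (v : V) : V := ∑ s ∈ SS T, (Perm.sign s : ℤ) • s • v

theorem SS_map {T : Finset (Fin N)} {s : Perm (Fin N)} (hs : s ∈ SS T) {x : Fin N} (hx : x ∈ T) :
    s x ∈ T := by
  by_contra h
  have h1 := mem_SS.1 hs _ h
  have h2 : s x = x := s.injective h1
  rw [h2] at h
  exact h hx

theorem SS_inv {T : Finset (Fin N)} {s : Perm (Fin N)} (hs : s ∈ SS T) : s⁻¹ ∈ SS T := by
  rw [mem_SS] at hs ⊢
  intro x hx
  rw [Perm.inv_eq_iff_eq, hs x hx]

theorem alt_empty (v : V) : alt (∅ : Finset (Fin N)) v = v := by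
  unfold alt
  have : SS (∅ : Finset (Fin N)) = {1} := by
    ext s
    rw [mem_SS, Finset.mem_singleton]
    constructor
    · intro h; ext x; rw [h x (by simp)]; rfl
    · rintro rfl x _; rfl
  rw [this, Finset.sum_singleton]
  simp

theorem alt_insert {T : Finset (Fin N)} {a : Fin N} (ha : a ∉ T) (v : V) :
    alt (insert a T) v = alt T v - ∑ x ∈ T, swap x a • alt T v := by
  have h1 : alt (insert a T) v = ∑ p ∈ (insert a T) ×ˢ (SS T),
      (Perm.sign (swap p.1 a * p.2) : ℤ) • (swap p.1 a * p.2) • v := by
    unfold alt
    symm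
    refine Finset.sum_bij' (fun p _ => swap p.1 a * p.2) (fun s _ => (s a, swap (s a) a * s))
      ?_ ?_ ?_ ?_ ?_
    · rintro ⟨x, t⟩ hp
      rw [Finset.mem_product] at hp
      obtain ⟨hx, ht⟩ := hp
      simp only at hx ht ⊢
      rw [mem_SS] at ht ⊢
      intro y hy
      rw [Finset.mem_insert, not_or] at hy
      rw [Perm.mul_apply, ht y hy.2]
      refine swap_apply_of_ne_of_ne ?_ hy.1
      rintro rfl
      rcases Finset.mem_insert.1 hx with h | h
      · exact hy.1 h
      · exact hy.2 h
    · intro s hs
      rw [Finset.mem_product]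
      refine ⟨SS_map hs (Finset.mem_insert_self _ _), ?_⟩
      simp only
      rw [mem_SS] at hs ⊢
      intro y hy
      rw [Perm.mul_apply]
      rcases eq_or_ne y a with rfl | hya
      · exact swap_apply_left _ _
      · have h2 : s y = y := hs y (by rw [Finset.mem_insert, not_or]; exact ⟨hya, hy⟩)
        rw [h2]
        refine swap_apply_of_ne_of_ne ?_ hya
        intro h3
        rw [h3] at h2
        exact hya (h3.trans (s.injective h2))
    · rintro ⟨x, t⟩ hp
      rw [Finset.mem_product] at hp
      obtain ⟨hx, ht⟩ := hp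
      simp only at hx ht ⊢
      have h2 : t a = a := mem_SS.1 ht a ha
      have h3 : (swap x a * t) a = x := by rw [Perm.mul_apply, h2, swap_apply_right]
      rw [h3, ← mul_assoc, swap_mul_self, one_mul]
    · intro s hs
      simp only
      rw [← mul_assoc, swap_mul_self, one_mul]
    · rintro ⟨x, t⟩ _
      rfl
  rw [h1, Finset.sum_product, Finset.sum_insert ha]
  have h2 : ∀ x ∈ T, ∑ t ∈ SS T, (Perm.sign (swap x a * t) : ℤ) • (swap x a * t) • v
      = - (swap x a • alt T v) := by
    intro x hx
    have hxa : x ≠ a := by rintro rfl; exact ha hx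
    unfold alt
    rw [Finset.smul_sum, ← Finset.sum_neg_distrib]
    refine Finset.sum_congr rfl fun t _ => ?_
    rw [Perm.sign_mul, Perm.sign_swap hxa, ← smul_smul, smul_comm (swap x a) ((Perm.sign t : ℤ))]
    simp
  rw [Finset.sum_congr rfl h2, Finset.sum_neg_distrib, sub_eq_add_neg]
  congr 1
  unfold alt
  refine Finset.sum_congr rfl fun t _ => ?_
  rw [swap_self]
  show (Perm.sign (1 * t) : ℤ) • (1 * t) • v = _
  rw [one_mul]

theorem alt_step {c : Fin N → Fin N} {f : V} (hinv : Inv c f) {T : Finset (Fin N)} {a : Fin N}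
    (hT : ∀ x ∈ T, c x ≠ c a) (hs : ∀ x ∈ T, mv c x (c a) f = 0) :
    ∑ b ∈ cls c (c a), swap a b • alt (insert a T) f
      = ((cls c (c a)).card + T.card) • alt T f := by
  have haT : a ∉ T := fun h => hT a h rfl
  set A := alt T f with hA
  -- step 1
  have h1 : ∀ b ∈ cls c (c a), swap a b • alt (insert a T) f = A - ∑ x ∈ T, swap x b • A := by
    intro b hb
    have hb1 : c b = c a := mem_cls.1 hb
    have hbT : b ∉ T := fun h => hT b h hb1
    have h2 : swap a b • A = A := by
      rw [hA]
      unfold alt
      rw [Finset.smul_sum]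
      refine Finset.sum_congr rfl fun s hs' => ?_
      rw [smul_comm (swap a b) ((Perm.sign s : ℤ))]
      congr 1
      rw [smul_smul]
      have h3 : swap a b * s = s * swap a b := by
        rw [sw_conj s a b, mem_SS.1 hs' a haT, mem_SS.1 hs' b hbT]
      rw [h3, ← smul_smul, hinv a b hb1.symm]
    rw [alt_insert haT, ← hA, smul_sub, h2, Finset.smul_sum]
    congr 1
    refine Finset.sum_congr rfl fun x hx => ?_
    have hxa : x ≠ a := by rintro rfl; exact haT hx
    have hxb : x ≠ b := by rintro rfl; exact hbT hx
    rw [smul_smul, sw_conj, swap_apply_left, swap_apply_of_ne_of_ne hxa hxb, ← smul_smul, h2]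
  rw [Finset.sum_congr rfl h1, Finset.sum_sub_distrib, Finset.sum_const, Finset.sum_comm]
  have h4 : ∀ x ∈ T, ∑ b ∈ cls c (c a), swap x b • A = - A := by
    intro x hx
    have h5 : ∀ b ∈ cls c (c a), swap x b • A
        = ∑ s ∈ SS T, (Perm.sign s : ℤ) • s • swap (s⁻¹ x) b • f := by
      intro b hb
      have hb1 : c b = c a := mem_cls.1 hb
      have hbT : b ∉ T := fun h => hT b h hb1
      rw [hA]
      unfold alt
      rw [Finset.smul_sum]
      refine Finset.sum_congr rfl fun s hs' => ?_
      rw [smul_comm (swap x b) ((Perm.sign s : ℤ))]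
      congr 1
      have e : s (s⁻¹ x) = x := by simp
      rw [smul_smul, smul_smul, sw_conj s (s⁻¹ x) b, mem_SS.1 hs' b hbT, e]
    rw [Finset.sum_congr rfl h5, Finset.sum_comm]
    have h6 : ∀ s ∈ SS T, ∑ b ∈ cls c (c a), (Perm.sign s : ℤ) • s • swap (s⁻¹ x) b • f
        = - ((Perm.sign s : ℤ) • s • f) := by
      intro s hs'
      rw [← Finset.smul_sum, ← Finset.smul_sum]
      have h7 := hs _ (SS_map (SS_inv hs') hx)
      unfold mv at h7
      have h8 : ∑ b ∈ cls c (c a), swap (s⁻¹ x) b • f = - f := by
        rw [eq_neg_iff_add_eq_zero, add_comm]; exact h7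
      rw [h8, smul_neg, smul_neg]
    rw [Finset.sum_congr rfl h6, Finset.sum_neg_distrib]
    rfl
  rw [Finset.sum_congr rfl h4, Finset.sum_const, smul_neg, sub_neg_eq_add, add_smul]

variable [Module ℚ V]

theorem build {c : Fin N → Fin N} {f : V} (hf : f ≠ 0) (hinv : Inv c f)
    (hstar : ∀ y k, c y ≠ k → (cls c (c y)).card ≤ (cls c k).card → mv c y k f = 0) :
    ∀ n, n ≤ (Finset.univ.image c).card → ∃ T : Finset (Fin N), T.card = n ∧ alt T f ≠ 0 ∧
      ∀ x ∈ T, ∀ y, c y ∉ T.image c → (cls c (c x)).card ≤ (cls c (c y)).card := by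
  intro n
  induction n with
  | zero =>
    intro _
    refine ⟨∅, rfl, ?_, ?_⟩
    · rw [alt_empty]; exact hf
    · intro x hx; simp at hx
  | succ n ih =>
    intro hn
    obtain ⟨T, hT1, hT2, hT3⟩ := ih (by omega)
    have h1 : ∃ y, c y ∉ T.image c := by
      by_contra hcon
      push Not at hcon
      have h2 : Finset.univ.image c ⊆ T.image c := by
        intro k hk
        obtain ⟨y, _, rfl⟩ := Finset.mem_image.1 hk
        exact hcon y
      have h3 := Finset.card_le_card h2
      have h4 : (T.image c).card ≤ T.card := Finset.card_image_le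
      omega
    -- choose y minimal
    let Y : Finset (Fin N) := Finset.univ.filter (fun y => c y ∉ T.image c)
    have hY : Y.Nonempty := by
      obtain ⟨y, hy⟩ := h1
      exact ⟨y, by simp only [Y, Finset.mem_filter, Finset.mem_univ, true_and]; exact hy⟩
    obtain ⟨a, haY, hamin⟩ := Finset.exists_min_image Y (fun y => (cls c (c y)).card) hY
    have ha : c a ∉ T.image c := by
      have := haY
      simp only [Y, Finset.mem_filter, Finset.mem_univ, true_and] at this
      exact this
    have haT : a ∉ T := fun h => ha (Finset.mem_image_of_mem c h)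
    have hne : ∀ x ∈ T, c x ≠ c a := by
      intro x hx h
      exact ha (h ▸ Finset.mem_image_of_mem c hx)
    have hst : ∀ x ∈ T, mv c x (c a) f = 0 := by
      intro x hx
      exact hstar x (c a) (hne x hx) (hT3 x hx a ha)
    refine ⟨insert a T, by rw [Finset.card_insert_of_notMem haT, hT1], ?_, ?_⟩
    · intro h0
      have h5 := alt_step hinv hne hst
      rw [h0] at h5
      simp only [smul_zero, Finset.sum_const_zero] at h5
      have h6 : 0 < (cls c (c a)).card := Finset.card_pos.2 ⟨a, mem_cls.2 rfl⟩
      have h7 : (((cls c (c a)).card + T.card : ℕ) : ℚ) • alt T f = 0 := by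
        rw [Nat.cast_smul_eq_nsmul]; exact h5.symm
      rcases smul_eq_zero.1 h7 with h8 | h8
      · have : (cls c (c a)).card + T.card = 0 := by exact_mod_cast h8
        omega
      · exact hT2 h8
    · intro x hx y hy
      have hyT : c y ∉ T.image c := fun h => hy (by
        rw [Finset.image_insert]; exact Finset.mem_insert_of_mem h)
      rcases Finset.mem_insert.1 hx with rfl | hx'
      · exact hamin y (by simp only [Y, Finset.mem_filter, Finset.mem_univ, true_and]; exact hyT)
      · exact hT3 x hx' y hyT

/-- disjoint pairs of equal colours -/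
theorem pairs_exist (c : Fin N → Fin N) : ∀ (n : ℕ) (X : Finset (Fin N)), X.card = n →
    ∃ ps : List (Fin N × Fin N), ps.length = ∑ k, (X.filter (fun x => c x = k)).card / 2 ∧
      (ps.flatMap (fun p => [p.1, p.2])).Nodup ∧ (∀ p ∈ ps, c p.1 = c p.2) ∧
      ∀ x ∈ ps.flatMap (fun p => [p.1, p.2]), x ∈ X := by
  intro n
  induction n using Nat.strong_induction_on with
  | _ n ih =>
    intro X hX
    by_cases h : ∃ a ∈ X, ∃ b ∈ X, a ≠ b ∧ c a = c b
    · obtain ⟨a, ha, b, hb, hab, hc⟩ := h
      have hb' : b ∈ X.erase a := Finset.mem_erase.2 ⟨hab.symm, hb⟩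
      have hcard : ((X.erase a).erase b).card < n := by
        rw [← hX]
        exact (Finset.card_erase_lt_of_mem hb').trans (Finset.card_erase_lt_of_mem ha)
      obtain ⟨ps, h1, h2, h3, h4⟩ := ih _ hcard ((X.erase a).erase b) rfl
      refine ⟨(a, b) :: ps, ?_, ?_, ?_, ?_⟩
      · rw [List.length_cons, h1]
        rw [← Finset.add_sum_erase Finset.univ _ (Finset.mem_univ (c a)),
          ← Finset.add_sum_erase Finset.univ (fun k => (X.filter (fun x => c x = k)).card / 2)
            (Finset.mem_univ (c a))]
        have e1 : ∑ k ∈ Finset.univ.erase (c a),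
            (((X.erase a).erase b).filter (fun x => c x = k)).card / 2
            = ∑ k ∈ Finset.univ.erase (c a), (X.filter (fun x => c x = k)).card / 2 := by
          refine Finset.sum_congr rfl fun k hk => ?_
          have hk' : k ≠ c a := Finset.ne_of_mem_erase hk
          congr 2
          ext x
          simp only [Finset.mem_filter, Finset.mem_erase]
          constructor
          · rintro ⟨⟨_, _, hx⟩, hxk⟩; exact ⟨hx, hxk⟩
          · rintro ⟨hx, hxk⟩
            refine ⟨⟨?_, ?_, hx⟩, hxk⟩
            · rintro rfl; exact hk' (hxk.symm.trans hc.symm)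
            · rintro rfl; exact hk' hxk.symm
        have e2 : ((X.erase a).erase b).filter (fun x => c x = c a)
            = ((X.filter (fun x => c x = c a)).erase a).erase b := by
          ext x
          simp only [Finset.mem_filter, Finset.mem_erase]
          tauto
        have e3 : a ∈ X.filter (fun x => c x = c a) := Finset.mem_filter.2 ⟨ha, rfl⟩
        have e4 : b ∈ (X.filter (fun x => c x = c a)).erase a :=
          Finset.mem_erase.2 ⟨hab.symm, Finset.mem_filter.2 ⟨hb, hc.symm⟩⟩
        have e5 := Finset.card_erase_add_one e3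
        have e6 := Finset.card_erase_add_one e4
        rw [e1, e2]
        have e7 : (X.filter (fun x => c x = c a)).card / 2
            = (((X.filter (fun x => c x = c a)).erase a).erase b).card / 2 + 1 := by
          omega
        rw [e7]
        ring
      · rw [List.flatMap_cons]
        have ha' : a ∉ ps.flatMap (fun p => [p.1, p.2]) := fun h' => by
          have := h4 a h'
          simp at this
        have hb'' : b ∉ ps.flatMap (fun p => [p.1, p.2]) := fun h' => by
          have := h4 b h'
          simp at this
        simp only [List.cons_append, List.nil_append, List.nodup_cons, List.mem_cons, not_or]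
        exact ⟨⟨hab, ha'⟩, hb'', h2⟩
      · intro p hp
        rcases List.mem_cons.1 hp with rfl | hp
        · exact hc
        · exact h3 p hp
      · intro x hx
        rw [List.flatMap_cons, List.mem_append] at hx
        rcases hx with hx | hx
        · simp only [List.mem_cons, List.not_mem_nil, or_false] at hx
          rcases hx with rfl | rfl
          · exact ha
          · exact hb
        · have := h4 x hx
          exact Finset.mem_of_mem_erase (Finset.mem_of_mem_erase this)
    · push Not at h
      refine ⟨[], ?_, by simp, by simp, by simp⟩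
      symm
      refine Finset.sum_eq_zero fun k _ => ?_
      have : (X.filter (fun x => c x = k)).card ≤ 1 := by
        rw [Finset.card_le_one]
        intro x hx y hy
        rw [Finset.mem_filter] at hx hy
        by_contra hxy
        exact h x hx.1 y hy.1 hxy (hx.2.trans hy.2.symm)
      show (X.filter (fun x => c x = k)).card / 2 = 0
      omega

theorem sum_cls (c : Fin N → Fin N) : ∑ k, (cls c k).card = N := by
  have h := Finset.card_eq_sum_card_fiberwise (s := (Finset.univ : Finset (Fin N)))
    (t := Finset.univ) (f := c) (fun _ _ => Finset.mem_coe.2 (Finset.mem_univ _))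
  have h2 : (Finset.univ : Finset (Fin N)).card = N := by simp
  rw [h2] at h
  exact h.symm

theorem card_image_eq (c : Fin N → Fin N) :
    (Finset.univ.image c).card = ∑ k, (if 0 < (cls c k).card then 1 else 0) := by
  rw [← Finset.card_filter]
  congr 1
  ext k
  simp only [Finset.mem_image, Finset.mem_univ, true_and, Finset.mem_filter, Finset.card_pos]
  constructor
  · rintro ⟨x, rfl⟩; exact ⟨x, mem_cls.2 rfl⟩
  · rintro ⟨x, hx⟩; exact ⟨x, mem_cls.1 hx⟩

/-- if a nonzero element has few classes, then some nonzero element is symmetric in `K + 1` disjoint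
pairs -/
theorem many_classes {K : ℕ} (hN : 4 * (K + 1) < N) (M : Submodule ℚ V)
    (hM : ∀ (s : Perm (Fin N)), ∀ v ∈ M, s • v ∈ M)
    (hp : ∀ f ∈ M, ∀ ps : List (Fin N × Fin N), ps.length = K + 1 →
      (ps.flatMap (fun p => [p.1, p.2])).Nodup → (∀ p ∈ ps, swap p.1 p.2 • f = f) → f = 0)
    {c : Fin N → Fin N} {f : V} (hfM : f ∈ M) (hf : f ≠ 0) (hinv : Inv c f) :
    N ≤ (Finset.univ.image c).card + K := by
  -- induction on the potential
  have key : ∀ (n : ℕ) (c : Fin N → Fin N) (f : V), pot c = n → f ∈ M → f ≠ 0 → Inv c f →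
      N ≤ (Finset.univ.image c).card + K := by
    intro n
    induction n using Nat.strong_induction_on with
    | _ n ih =>
      intro c f hn hfM hf hinv
      by_contra hlt
      push Not at hlt
      have fin : K + 1 ≤ ∑ k, (cls c k).card / 2 → False := by
        intro hk
        obtain ⟨ps, h1, h2, h3, _⟩ := pairs_exist c _ Finset.univ rfl
        have h1' : K + 1 ≤ ps.length := by rw [h1]; exact hk
        refine hf (hp f hfM (ps.take (K + 1)) ?_ ?_ ?_)
        · rw [List.length_take]; omega
        · refine List.Nodup.sublist ?_ h2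
          exact List.Sublist.flatMap (List.take_sublist _ _) _
        · intro p hp'
          exact hinv _ _ (h3 p (List.mem_of_mem_take hp'))
      by_cases hs : ∃ x, (cls c (c x)).card = 1
      · by_cases hb : ∃ a, 3 ≤ (cls c (c a)).card
        · obtain ⟨x, hx⟩ := hs
          obtain ⟨a, ha⟩ := hb
          have hca : c a ≠ c x := by
            intro h; rw [h, hx] at ha; omega
          -- another element of the class of a
          have ha2 : ∃ b ∈ cls c (c a), b ≠ a := Finset.exists_mem_ne (by omega) a
          obtain ⟨b, hbm, hba⟩ := ha2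
          have hcb : c b = c a := mem_cls.1 hbm
          have hclx : cls c (c x) = {x} := by
            obtain ⟨z, hz⟩ := Finset.card_eq_one.1 hx
            have : x ∈ cls c (c x) := mem_cls.2 rfl
            rw [hz, Finset.mem_singleton] at this
            rw [hz, this]
          have move : ∀ y, c y = c a → mv c y (c x) f = 0 := by
            intro y hy
            by_contra hne
            have hyx : c y ≠ c x := by rw [hy]; exact hca
            have hpot := pot_mv hyx
            rw [hx, hy] at hpot
            have himg : (Finset.univ.image (Function.update c y (c x))).card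
                = (Finset.univ.image c).card := by
              congr 1
              ext k
              simp only [Finset.mem_image, Finset.mem_univ, true_and]
              constructor
              · rintro ⟨z, rfl⟩
                rcases eq_or_ne z y with rfl | hz
                · exact ⟨x, by rw [Function.update_self]⟩
                · exact ⟨z, by rw [Function.update_of_ne hz]⟩
              · rintro ⟨z, rfl⟩
                rcases eq_or_ne z y with rfl | hz
                · obtain ⟨z', hz', hne'⟩ := Finset.exists_mem_ne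
                    (s := cls c (c a)) (by omega) z
                  refine ⟨z', ?_⟩
                  rw [Function.update_of_ne hne', mem_cls.1 hz', hy]
                · exact ⟨z, by rw [Function.update_of_ne hz]⟩
            have hmem : mv c y (c x) f ∈ M := by
              unfold mv
              exact M.add_mem hfM (M.sum_mem fun b _ => hM _ _ hfM)
            have := ih (pot (Function.update c y (c x))) (by omega) _ _ rfl hmem hne
              (mv_inv hinv hyx)
            rw [himg] at this
            omega
          have m1 := move a rfl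
          have m2 := move b hcb
          unfold mv at m1 m2
          rw [hclx, Finset.sum_singleton] at m1 m2
          -- m1 : f + swap a x • f = 0
          have n1 : swap a x • f = - f := by
            rw [eq_neg_iff_add_eq_zero, add_comm]; exact m1
          have n2 : swap b x • f = - f := by
            rw [eq_neg_iff_add_eq_zero, add_comm]; exact m2
          have hxa : x ≠ a := by rintro rfl; exact hca rfl
          have hxb : x ≠ b := by rintro rfl; exact hca hcb.symm
          have n3 : swap a x * swap a b = swap b x * swap a x := by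
            rw [sw_conj (swap a x) a b, swap_apply_left,
              swap_apply_of_ne_of_ne hba hxb.symm, swap_comm x b]
          have n4 : swap a x • swap a b • f = swap b x • swap a x • f := by
            rw [smul_smul, smul_smul, n3]
          rw [hinv a b hcb.symm, n1, smul_neg, n2, neg_neg] at n4
          -- -f = f
          have n5 : (2 : ℚ) • f = 0 := by
            rw [two_smul]; nth_rewrite 1 [← n4]; exact neg_add_cancel f
          rcases smul_eq_zero.1 n5 with h | h
          · norm_num at h
          · exact hf h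
        · push Not at hb
          apply fin
          -- all classes have size at most 2
          have h1 : ∀ k, (cls c k).card / 2 + (if 0 < (cls c k).card then 1 else 0)
              = (cls c k).card := by
            intro k
            by_cases hk : 0 < (cls c k).card
            · obtain ⟨x, hx⟩ := Finset.card_pos.1 hk
              have := hb x
              rw [mem_cls.1 hx] at this
              rw [if_pos hk]
              omega
            · rw [if_neg hk]; omega
          have h2 : ∑ k, (cls c k).card / 2 + (Finset.univ.image c).card = N := by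
            rw [card_image_eq, ← Finset.sum_add_distrib, Finset.sum_congr rfl fun k _ => h1 k,
              sum_cls]
          omega
      · push Not at hs
        apply fin
        have h1 : ∀ k, (cls c k).card ≤ 3 * ((cls c k).card / 2) := by
          intro k
          by_cases hk : 0 < (cls c k).card
          · obtain ⟨x, hx⟩ := Finset.card_pos.1 hk
            have := hs x
            rw [mem_cls.1 hx] at this
            omega
          · omega
        have h2 : N ≤ 3 * ∑ k, (cls c k).card / 2 := by
          rw [Finset.mul_sum]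
          calc N = ∑ k, (cls c k).card := (sum_cls c).symm
            _ ≤ _ := Finset.sum_le_sum fun k _ => h1 k
        omega
  exact key _ c f rfl hfM hf hinv

/-- the abstract form of `young` -/
theorem young_abs {K : ℕ} (hN : 4 * (K + 1) < N) (M : Submodule ℚ V)
    (hM : ∀ (s : Perm (Fin N)), ∀ v ∈ M, s • v ∈ M)
    (hp : ∀ f ∈ M, ∀ ps : List (Fin N × Fin N), ps.length = K + 1 →
      (ps.flatMap (fun p => [p.1, p.2])).Nodup → (∀ p ∈ ps, swap p.1 p.2 • f = f) → f = 0)
    {f0 : V} (h0 : f0 ∈ M) (hf0 : f0 ≠ 0) :
    ∃ f ∈ M, ∃ T : Finset (Fin N), T.card + K = N ∧ alt T f ≠ 0 := by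
  classical
  -- choose the pair with maximal potential
  let P : ℕ → Prop := fun n => ∃ (c : Fin N → Fin N) (f : V), f ∈ M ∧ f ≠ 0 ∧ Inv c f ∧ pot c = n
  have hP : ∃ n, P n := by
    refine ⟨pot id, id, f0, h0, hf0, ?_, rfl⟩
    intro a b hab
    have : a = b := hab
    subst this
    rw [swap_self]; exact one_smul _ _
  have hbd : ∀ n, P n → n ≤ N * N ^ 2 := by
    rintro n ⟨c, f, _, _, _, rfl⟩
    exact pot_le c
  obtain ⟨n0, hn0⟩ := hP
  have hfind := Nat.findGreatest_spec (P := P) (hbd n0 hn0) hn0
  obtain ⟨c, f, hfM, hf, hinv, hpot⟩ := hfind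
  have hmax : ∀ (c' : Fin N → Fin N) (g : V), g ∈ M → g ≠ 0 → Inv c' g → pot c' ≤ pot c := by
    intro c' g hg1 hg2 hg3
    rw [hpot]
    exact Nat.le_findGreatest (pot_le c') ⟨c', g, hg1, hg2, hg3, rfl⟩
  have hstar : ∀ y k, c y ≠ k → (cls c (c y)).card ≤ (cls c k).card → mv c y k f = 0 := by
    intro y k hy hle
    by_contra hne
    have hmem : mv c y k f ∈ M := by
      unfold mv
      exact M.add_mem hfM (M.sum_mem fun b _ => hM _ _ hfM)
    have h1 := hmax _ _ hmem hne (mv_inv hinv hy)
    have h2 := pot_mv hy
    omega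
  have hcl := many_classes hN M hM hp hfM hf hinv
  obtain ⟨T, hT1, hT2, _⟩ := build hf hinv hstar (N - K) (by omega)
  exact ⟨f, hfM, T, by omega, hT2⟩

end abs

/-- functions on the symmetric group with the left action -/
def WW (N : ℕ) : Type := Perm (Fin N) → ℚ

instance (N : ℕ) : AddCommGroup (WW N) := inferInstanceAs (AddCommGroup (Perm (Fin N) → ℚ))
instance (N : ℕ) : Module ℚ (WW N) := inferInstanceAs (Module ℚ (Perm (Fin N) → ℚ))

instance (N : ℕ) : DistribMulAction (Perm (Fin N)) (WW N) where
  smul s φ := fun g => φ (s⁻¹ * g)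
  one_smul φ := by
    funext g
    show φ ((1 : Perm (Fin N))⁻¹ * g) = φ g
    rw [inv_one, one_mul]
  mul_smul s t φ := by
    funext g
    show φ ((s * t)⁻¹ * g) = φ (t⁻¹ * (s⁻¹ * g))
    rw [mul_inv_rev, mul_assoc]
  smul_zero _ := rfl
  smul_add _ _ _ := rfl

theorem WW_smul {N : ℕ} (s : Perm (Fin N)) (φ : WW N) (g : Perm (Fin N)) :
    (s • φ : WW N) g = φ (s⁻¹ * g) := rfl

/-- restriction to the words which are permutations of `finRange` -/
def RR (N : ℕ) : (List (Fin N) → ℚ) →ₗ[ℚ] WW N where
  toFun F := fun g => F ((List.finRange N).map g)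
  map_add' _ _ := rfl
  map_smul' _ _ := rfl

theorem RR_apply {N : ℕ} (F : List (Fin N) → ℚ) (g : Perm (Fin N)) :
    RR N F g = F ((List.finRange N).map g) := rfl

theorem RR_tr {N : ℕ} (s : Perm (Fin N)) (F : List (Fin N) → ℚ) :
    RR N (tr s F) = s⁻¹ • RR N F := by
  funext g
  rw [WW_smul, RR_apply, RR_apply, inv_inv]
  simp only [tr, List.map_map]
  rfl

theorem exists_perm_of_word {N : ℕ} {w : List (Fin N)} (h : w.Perm (List.finRange N)) :
    ∃ g : Perm (Fin N), w = (List.finRange N).map g := by
  have hlen : w.length = N := by rw [h.length_eq, List.length_finRange]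
  have hnd : w.Nodup := h.nodup_iff.2 (List.nodup_finRange N)
  let f : Fin N → Fin N := fun i => w.get (Fin.cast hlen.symm i)
  have hf : Function.Injective f := by
    intro i j hij
    have := (List.nodup_iff_injective_get.1 hnd) hij
    simpa using this
  refine ⟨Equiv.ofBijective f (Finite.injective_iff_bijective.1 hf), ?_⟩
  apply List.ext_get
  · simp [hlen]
  · intro n h1 h2
    simp [f]

theorem RR_eq_zero_iff {N : ℕ} {F : List (Fin N) → ℚ} :
    RR N F = 0 ↔ ∀ w, w.Perm (List.finRange N) → F w = 0 := by
  constructor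
  · intro h w hw
    obtain ⟨g, rfl⟩ := exists_perm_of_word hw
    exact congrFun h g
  · intro h
    funext g
    exact h _ (Equiv.Perm.map_finRange_perm g)

/-- **From pairs to an antisymmetrizer.** -/
theorem young {N K : Nat} (hN : 4 * (K + 1) < N) (F : List (Fin N) → ℚ)
    (hp : ∀ f ∈ MF F, ∀ ps : List (Fin N × Fin N), ps.length = K + 1 →
      (ps.flatMap (fun p => [p.1, p.2])).Nodup →
      (∀ p ∈ ps, ∀ w, w.Perm (List.finRange N) → f (w.map (Equiv.swap p.1 p.2)) = f w) →
      ∀ w, w.Perm (List.finRange N) → f w = 0)
    (w0 : List (Fin N)) (h0 : w0.Perm (List.finRange N)) (h : F w0 ≠ 0) :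
    ∃ T : Finset (Fin N), T.card + K = N ∧ ∃ w : List (Fin N), w.Perm (List.finRange N) ∧
      ∑ s ∈ Finset.univ.filter (fun s : Equiv.Perm (Fin N) => ∀ x, x ∉ T → s x = x),
        (Equiv.Perm.sign s : ℚ) * F (w.map s) ≠ 0 := by
  classical
  let M : Submodule ℚ (WW N) := (MF F).map (RR N)
  have hM : ∀ (s : Perm (Fin N)), ∀ v ∈ M, s • v ∈ M := by
    rintro s _ ⟨f, hf, rfl⟩
    refine ⟨tr s⁻¹ f, tr_mem_MF s⁻¹ hf, ?_⟩
    rw [RR_tr, inv_inv]
  have hp' : ∀ f ∈ M, ∀ ps : List (Fin N × Fin N), ps.length = K + 1 →
      (ps.flatMap (fun p => [p.1, p.2])).Nodup → (∀ p ∈ ps, swap p.1 p.2 • f = f) → f = 0 := by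
    rintro _ ⟨f, hf, rfl⟩ ps h1 h2 h3
    rw [RR_eq_zero_iff]
    refine hp f hf ps h1 h2 ?_
    intro p hpm w hw
    obtain ⟨g, rfl⟩ := exists_perm_of_word hw
    have h4 := congrFun (h3 p hpm) g
    rw [WW_smul, RR_apply, RR_apply, swap_inv] at h4
    rw [← h4, List.map_map]
    rfl
  have hR : RR N F ≠ 0 := by
    intro h1
    exact h (RR_eq_zero_iff.1 h1 w0 h0)
  obtain ⟨_, ⟨f, hf, rfl⟩, T, hT, hne⟩ := young_abs hN M hM hp' (f0 := RR N F)
    ⟨F, self_mem_MF F, rfl⟩ hR
  -- some translate is not killed
  have h5 : ∃ s : Perm (Fin N), alt T (RR N (tr s F)) ≠ 0 := by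
    by_contra hcon
    push Not at hcon
    apply hne
    refine Submodule.span_induction (p := fun f _ => alt T (RR N f) = 0) ?_ ?_ ?_ ?_ hf
    · rintro _ ⟨s, rfl⟩; exact hcon s
    · rw [map_zero]; unfold alt; simp
    · intro x y _ _ hx hy
      rw [map_add]
      have : alt T (RR N x + RR N y) = alt T (RR N x) + alt T (RR N y) := by
        unfold alt
        rw [← Finset.sum_add_distrib]
        refine Finset.sum_congr rfl fun s _ => ?_
        rw [smul_add, smul_add]
      rw [this, hx, hy, add_zero]
    · intro a x _ hx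
      rw [map_smul]
      have : alt T (a • RR N x) = a • alt T (RR N x) := by
        unfold alt
        rw [Finset.smul_sum]
        refine Finset.sum_congr rfl fun s _ => ?_
        have h6 : s • a • RR N x = a • s • RR N x := rfl
        rw [h6, smul_comm]
      rw [this, hx, smul_zero]
  obtain ⟨s, hs⟩ := h5
  have h6 : ∃ g, (alt T (RR N (tr s F)) : WW N) g ≠ 0 := by
    by_contra hcon
    push Not at hcon
    exact hs (funext hcon)
  obtain ⟨g, hg⟩ := h6
  refine ⟨T.map s.toEmbedding, by rw [Finset.card_map]; exact hT,
    (List.finRange N).map (s * g), Equiv.Perm.map_finRange_perm _, ?_⟩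
  intro h7
  apply hg
  have h8 : (alt T (RR N (tr s F)) : WW N) g
      = ∑ t ∈ SS T, (Perm.sign t : ℚ) * F ((List.finRange N).map (s * t⁻¹ * g)) := by
    unfold alt
    have h9 : ∀ (A : Finset (Perm (Fin N))) (u : Perm (Fin N) → WW N),
        (∑ t ∈ A, u t) g = ∑ t ∈ A, u t g := by
      intro A u
      exact Finset.sum_apply g A u
    rw [h9]
    refine Finset.sum_congr rfl fun t _ => ?_
    have h10 : ((Perm.sign t : ℤ) • t • RR N (tr s F) : WW N) g
        = (Perm.sign t : ℤ) • ((t • RR N (tr s F) : WW N) g) := rfl
    rw [h10, WW_smul, RR_apply, zsmul_eq_mul]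
    congr 1
    simp only [tr, List.map_map]
    rfl
  rw [h8, ← h7]
  refine Finset.sum_bij' (fun t _ => s * t⁻¹ * s⁻¹) (fun t _ => s⁻¹ * t⁻¹ * s) ?_ ?_ ?_ ?_ ?_
  · intro t ht
    rw [Finset.mem_filter]
    refine ⟨Finset.mem_univ _, ?_⟩
    intro x hx
    have hx' : s⁻¹ x ∉ T := by
      intro h'
      apply hx
      rw [Finset.mem_map]
      exact ⟨s⁻¹ x, h', by simp⟩
    have := mem_SS.1 (SS_inv ht) _ hx'
    rw [Perm.mul_apply, Perm.mul_apply, this]
    simp
  · intro t ht
    rw [Finset.mem_filter] at ht
    rw [mem_SS]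
    intro x hx
    have hx' : s x ∉ T.map s.toEmbedding := by
      intro h'
      apply hx
      rw [Finset.mem_map] at h'
      obtain ⟨z, hz, hzz⟩ := h'
      have : z = x := s.injective hzz
      rw [← this]; exact hz
    have h11 : t⁻¹ (s x) = s x := by
      rw [Perm.inv_eq_iff_eq, ht.2 _ hx']
    rw [Perm.mul_apply, Perm.mul_apply, h11]
    simp
  · intro t _
    group
  · intro t _
    group
  · intro t _
    have e1 : Perm.sign (s * t⁻¹ * s⁻¹) = Perm.sign t := by
      rw [Perm.sign_mul, Perm.sign_mul, Perm.sign_inv, Perm.sign_inv, mul_comm (Perm.sign s),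
        mul_assoc, Int.units_mul_self, mul_one]
    rw [e1]
    congr 1
    rw [List.map_map]
    congr 1
    have e2 : s * t⁻¹ * g = (s * t⁻¹ * s⁻¹) * (s * g) := by group
    rw [e2]
    rfl

end LieLow
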