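import Mathlib

/-!
# MP_a9fd20 (LieLow): translates of a function on words

Author: helper53 (statement by helper29).
-/

namespace LieLow

/-- renaming of the letters of the argument -/
def tr {N : Nat} (s : Equiv.Perm (Fin N)) (F : List (Fin N) → ℚ) : List (Fin N) → ℚ :=
  fun l => F (l.map s)

/-- the space spanned by all translates of `F` -/
def MF {N : Nat} (F : List (Fin N) → ℚ) : Submodule ℚ (List (Fin N) → ℚ) :=
  Submodule.span ℚ (Set.range (fun s : Equiv.Perm (Fin N) => tr s F))

theorem tr_tr {N : Nat} (s t : Equiv.Perm (Fin N)) (F : List (Fin N) → ℚ) :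
    tr s (tr t F) = tr (t * s) F := by
  funext l
  simp only [tr, List.map_map]
  rfl

theorem tr_one {N : Nat} (F : List (Fin N) → ℚ) : tr 1 F = F := by
  funext l
  simp [tr]

/-- `tr s` as a linear map -/
def trL {N : Nat} (s : Equiv.Perm (Fin N)) : (List (Fin N) → ℚ) →ₗ[ℚ] (List (Fin N) → ℚ) where
  toFun := tr s
  map_add' _ _ := rfl
  map_smul' _ _ := rfl

theorem self_mem_MF {N : Nat} (F : List (Fin N) → ℚ) : F ∈ MF F :=
  Submodule.subset_span ⟨1, tr_one F⟩

theorem tr_mem_MF {N : Nat} (s : Equiv.Perm (Fin N)) {F f : List (Fin N) → ℚ} (h : f ∈ MF F) :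
    tr s f ∈ MF F := by
  have h1 : (MF F) ≤ (MF F).comap (trL s) := by
    refine Submodule.span_le.2 ?_
    rintro _ ⟨t, rfl⟩
    exact Submodule.subset_span ⟨t * s, (tr_tr s t F).symm⟩
  exact h1 h

end LieLow
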