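import Mathlib
import Pool.Agent.LieLow.Pairs
import Pool.Agent.LieLow.YoungDef
import Pool.Agent.LieLow.Young

/-!
# Cactus bound, final form

A nonzero cyclic function on the words in `2n + e` letters which vanishes on `gl_n` has a nonzero
antisymmetrisation over all but `2(e - 1)` letters.
-/

namespace LieLow

open Pool.Agent.Helper22.LB Finset

variable {N : ℕ}

theorem evr_relabel {n : ℕ} (σ : Equiv.Perm (Fin N)) (k : ℕ) :
    ∀ (x : Fin N → Matrix (Fin n) (Fin n) ℚ) (S : Finset (Fin N)) (c : List (Fin N) → ℚ),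
      evr x k S (fun l => c (l.map σ)) =
        evr (fun v => x (σ.symm v)) k (S.map σ.toEmbedding) c := by
  induction k with
  | zero => intro x S c; simp [evr]
  | succ k ih =>
    intro x S c
    simp only [evr]
    rw [Finset.sum_map]
    refine Finset.sum_congr rfl fun q _ => ?_
    have e1 : (S.erase q).map σ.toEmbedding = (S.map σ.toEmbedding).erase (σ.toEmbedding q) := by
      rw [Finset.map_erase]
    have := ih x (S.erase q) (fun l => c (σ q :: l))
    simp only [List.map_cons, Equiv.coe_toEmbedding, Equiv.symm_apply_apply] at this ⊢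
    rw [this, e1]
    rfl

/-- vanishing on `gl_n` in root form -/
def Van (n : ℕ) (f : List (Fin N) → ℚ) : Prop :=
  ∀ z, ∀ x : Fin N → Matrix (Fin n) (Fin n) ℚ,
    evr x (univ.erase z).card (univ.erase z) (fun l => f (z :: l)) = 0

/-- cyclic -/
def Cyc (f : List (Fin N) → ℚ) : Prop :=
  ∀ l l', Wd N (l ++ l') → f (l ++ l') = f (l' ++ l)

theorem van_tr {n : ℕ} {F : List (Fin N) → ℚ} (h : Van n F) (σ : Equiv.Perm (Fin N)) :
    Van n (tr σ F) := by
  intro z x
  have e1 : (univ.erase z : Finset (Fin N)).map σ.toEmbedding = univ.erase (σ z) := by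
    rw [Finset.map_erase]
    simp
  have h1 := evr_relabel σ (univ.erase z : Finset (Fin N)).card x (univ.erase z)
    (fun l => F (σ z :: l))
  have e2 : (univ.erase z : Finset (Fin N)).card = (univ.erase (σ z) : Finset (Fin N)).card := by
    simp
  have h2 : (fun l : List (Fin N) => tr σ F (z :: l)) = fun l => F (σ z :: l.map σ) := by
    funext l
    simp [LieLow.tr]
  rw [h2, h1, e1, e2]
  exact h (σ z) _

theorem MF_van {n : ℕ} {F : List (Fin N) → ℚ} (h : Van n F) : ∀ f ∈ MF F, Van n f := by
  intro f hf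
  induction hf using Submodule.span_induction with
  | mem f hf =>
    obtain ⟨σ, rfl⟩ := hf
    exact van_tr h σ
  | zero =>
    intro z x
    have := evr_zero x (univ.erase z : Finset (Fin N)).card (univ.erase z)
    simpa using this
  | add f g _ _ hf hg =>
    intro z x
    have h1 := evr_add x (univ.erase z : Finset (Fin N)).card (univ.erase z)
      (fun l => f (z :: l)) (fun l => g (z :: l))
    rw [hf z x, hg z x, add_zero] at h1
    exact h1
  | smul r f _ hf =>
    intro z x
    have h1 := evr_smul x (univ.erase z : Finset (Fin N)).card (univ.erase z) r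
      (fun l => f (z :: l))
    rw [hf z x, smul_zero] at h1
    exact h1

theorem MF_cyc {F : List (Fin N) → ℚ} (h : Cyc F) : ∀ f ∈ MF F, Cyc f := by
  intro f hf
  induction hf using Submodule.span_induction with
  | mem f hf =>
    obtain ⟨σ, rfl⟩ := hf
    intro l l' hw
    simp only [LieLow.tr, List.map_append]
    refine h _ _ ?_
    rw [← List.map_append]
    exact hw.map σ
  | zero => intro l l' _; rfl
  | add f g _ _ hf hg =>
    intro l l' hw
    simp only [Pi.add_apply]
    rw [hf l l' hw, hg l l' hw]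
  | smul r f _ hf =>
    intro l l' hw
    simp only [Pi.smul_apply]
    rw [hf l l' hw]

/-- **Cactus bound.** -/
theorem cactus {n e : ℕ} (he : 1 ≤ e) (hn : 3 ≤ n) (h7 : 7 * e < 2 * n + 4)
    (hN : N = 2 * n + e) (F : List (Fin N) → ℚ) (hcyc : Cyc F) (hv : Van n F)
    (w0 : List (Fin N)) (hw0 : w0.Perm (List.finRange N)) (h0 : F w0 ≠ 0) :
    ∃ T : Finset (Fin N), T.card + 2 * (e - 1) = N ∧ ∃ w : List (Fin N),
      w.Perm (List.finRange N) ∧
      ∑ s ∈ univ.filter (fun s : Equiv.Perm (Fin N) => ∀ x, x ∉ T → s x = x),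
        (Equiv.Perm.sign s : ℚ) * F (w.map s) ≠ 0 := by
  have hp : ∀ f ∈ MF F, ∀ ps : List (Fin N × Fin N), ps.length = 2 * (e - 1) + 1 →
      (ps.flatMap (fun p => [p.1, p.2])).Nodup →
      (∀ p ∈ ps, ∀ w : List (Fin N), w.Perm (List.finRange N) →
        f (w.map (Equiv.swap p.1 p.2)) = f w) →
      ∀ w : List (Fin N), w.Perm (List.finRange N) → f w = 0 := by
    intro f hf ps hps hnd hsym
    exact pairs_zero he hn h7 hN f (MF_cyc hcyc f hf) (MF_van hv f hf) ps (by omega) hnd hsym
  exact young (K := 2 * (e - 1)) (by omega) F hp w0 hw0 h0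

end LieLow
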