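import Mathlib

/-!
# Contraction lemma (parts IV and V of the lower bound for Lie identities of sl_n)

`c` is a function on exponent vectors `a : Fin q → ℕ` of size `D`.
`dl L c` is the iterated difference along the list of pairs `L`,
`dv L g` is the number of pairs of `L` which contain `g`.
-/

namespace LieLow

open Finset

variable {q : ℕ} {R : Type*} [Field R]

/-- Iterated difference `∏ (T_i - T_j)` over the pairs `(i,j)` of the list. -/
def dl (L : List (Fin q × Fin q)) (c : (Fin q → ℕ) → R) : (Fin q → ℕ) → R :=
  L.foldr (fun p f => fun a => f (a + Pi.single p.1 1) - f (a + Pi.single p.2 1)) c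

/-- Valence of `g` in the list of pairs. -/
def dv (L : List (Fin q × Fin q)) : Fin q → ℕ :=
  L.foldr (fun p f => f + Pi.single p.1 1 + Pi.single p.2 1) 0

/-- No two pairs cross on the line. -/
def NC (L : List (Fin q × Fin q)) : Prop :=
  ∀ p ∈ L, ∀ r ∈ L, ¬ (p.1 < r.1 ∧ r.1 < p.2 ∧ p.2 < r.2)

@[simp] theorem dl_nil (c : (Fin q → ℕ) → R) : dl [] c = c := rfl

theorem dl_cons (p : Fin q × Fin q) (L : List (Fin q × Fin q)) (c : (Fin q → ℕ) → R)
    (a : Fin q → ℕ) :
    dl (p :: L) c a = dl L c (a + Pi.single p.1 1) - dl L c (a + Pi.single p.2 1) := rfl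

@[simp] theorem dv_nil : dv ([] : List (Fin q × Fin q)) = 0 := rfl

theorem dv_cons (p : Fin q × Fin q) (L : List (Fin q × Fin q)) :
    dv (p :: L) = dv L + Pi.single p.1 1 + Pi.single p.2 1 := rfl

theorem sum_dv (L : List (Fin q × Fin q)) : ∑ g, dv L g = 2 * L.length := by
  induction L with
  | nil => simp
  | cons p L ih =>
    rw [dv_cons]
    simp only [Pi.add_apply, Finset.sum_add_distrib, ih, List.length_cons]
    rw [Finset.sum_pi_single' p.1 1 Finset.univ, Finset.sum_pi_single' p.2 1 Finset.univ]
    simp
    ring

theorem dl_perm {L L' : List (Fin q × Fin q)} (h : L.Perm L') (c : (Fin q → ℕ) → R) :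
    dl L c = dl L' c := by
  induction h with
  | nil => rfl
  | cons p _ ih =>
    funext a
    rw [dl_cons, dl_cons, ih]
  | swap p r L =>
    funext a
    rw [dl_cons, dl_cons, dl_cons, dl_cons, dl_cons, dl_cons]
    rw [add_right_comm a (Pi.single r.1 1) (Pi.single p.1 1),
      add_right_comm a (Pi.single r.1 1) (Pi.single p.2 1),
      add_right_comm a (Pi.single r.2 1) (Pi.single p.1 1),
      add_right_comm a (Pi.single r.2 1) (Pi.single p.2 1)]
    ring
  | trans _ _ ih1 ih2 => rw [ih1, ih2]

theorem dv_perm {L L' : List (Fin q × Fin q)} (h : L.Perm L') : dv L = dv L' := by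
  induction h with
  | nil => rfl
  | cons p _ ih => rw [dv_cons, dv_cons, ih]
  | swap p r L =>
    rw [dv_cons, dv_cons, dv_cons, dv_cons]
    abel
  | trans _ _ ih1 ih2 => rw [ih1, ih2]

/-- The translation relation is inherited by the iterated differences. -/
theorem ti_dl (c : (Fin q → ℕ) → R) (D : ℕ)
    (hTI : ∀ a : Fin q → ℕ, (∑ g, a g) + 1 = D →
      ∑ g, ((a g : R) + 1) * c (a + Pi.single g 1) = 0) :
    ∀ (L : List (Fin q × Fin q)) (a : Fin q → ℕ), (∑ g, a g) + L.length + 1 = D →
      ∑ g, ((a g : R) + 1 + (dv L g : R)) * dl L c (a + Pi.single g 1) = 0 := by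
  intro L
  induction L with
  | nil =>
    intro a ha
    have := hTI a (by simpa using ha)
    simpa using this
  | cons p L ih =>
    intro a ha
    simp only [List.length_cons] at ha
    have hs : ∀ i : Fin q, ∑ g, (a + Pi.single i 1 : Fin q → ℕ) g = (∑ g, a g) + 1 := by
      intro i
      simp only [Pi.add_apply, Finset.sum_add_distrib]
      rw [Finset.sum_pi_single' i 1 Finset.univ]
      simp
    have h1 := ih (a + Pi.single p.1 1) (by rw [hs]; omega)
    have h2 := ih (a + Pi.single p.2 1) (by rw [hs]; omega)
    have key : ∀ i : Fin q,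
        ∑ g, (((a + Pi.single i 1 : Fin q → ℕ) g : R) + 1 + (dv L g : R)) *
          dl L c (a + Pi.single i 1 + Pi.single g 1) =
        ∑ g, ((a g : R) + 1 + (dv L g : R)) * dl L c (a + Pi.single g 1 + Pi.single i 1) +
          dl L c (a + Pi.single i 1 + Pi.single i 1) := by
      intro i
      have : ∀ g, (((a + Pi.single i 1 : Fin q → ℕ) g : R) + 1 + (dv L g : R)) *
          dl L c (a + Pi.single i 1 + Pi.single g 1) =
          ((a g : R) + 1 + (dv L g : R)) * dl L c (a + Pi.single g 1 + Pi.single i 1) +
          (if i = g then dl L c (a + Pi.single i 1 + Pi.single i 1) else 0) := by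
        intro g
        rw [add_right_comm a (Pi.single i 1) (Pi.single g 1)]
        by_cases h : i = g
        · subst h
          simp only [Pi.add_apply, Pi.single_eq_same, if_true]
          push_cast
          ring
        · simp only [Pi.add_apply, if_neg h]
          rw [Pi.single_eq_of_ne (Ne.symm h)]
          push_cast
          ring
      rw [Finset.sum_congr rfl (fun g _ => this g), Finset.sum_add_distrib]
      simp
    rw [key] at h1 h2
    have goal : ∑ g, ((a g : R) + 1 + (dv (p :: L) g : R)) * dl (p :: L) c (a + Pi.single g 1) =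
        (∑ g, ((a g : R) + 1 + (dv L g : R)) * dl L c (a + Pi.single g 1 + Pi.single p.1 1) +
          dl L c (a + Pi.single p.1 1 + Pi.single p.1 1)) -
        (∑ g, ((a g : R) + 1 + (dv L g : R)) * dl L c (a + Pi.single g 1 + Pi.single p.2 1) +
          dl L c (a + Pi.single p.2 1 + Pi.single p.2 1)) := by
      have e : ∀ g, ((a g : R) + 1 + (dv (p :: L) g : R)) * dl (p :: L) c (a + Pi.single g 1) =
          (((a g : R) + 1 + (dv L g : R)) * dl L c (a + Pi.single g 1 + Pi.single p.1 1) -
          ((a g : R) + 1 + (dv L g : R)) * dl L c (a + Pi.single g 1 + Pi.single p.2 1)) +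
          (if p.1 = g then dl (p :: L) c (a + Pi.single p.1 1) else 0) +
          (if p.2 = g then dl (p :: L) c (a + Pi.single p.2 1) else 0) := by
        intro g
        have hdv : (dv (p :: L) g : R) = (dv L g : R) + (if p.1 = g then 1 else 0) +
            (if p.2 = g then 1 else 0) := by
          rw [dv_cons]
          simp only [Pi.add_apply, Pi.single_apply, Nat.cast_add]
          have s1 : (((if g = p.1 then 1 else 0 : ℕ)) : R) = if p.1 = g then 1 else 0 := by
            by_cases h : p.1 = g
            · simp [h]
            · simp [h, Ne.symm h]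
          have s2 : (((if g = p.2 then 1 else 0 : ℕ)) : R) = if p.2 = g then 1 else 0 := by
            by_cases h : p.2 = g
            · simp [h]
            · simp [h, Ne.symm h]
          rw [s1, s2]
        rw [hdv, dl_cons]
        by_cases h1 : p.1 = g
        · by_cases h2 : p.2 = g
          · rw [if_pos h1, if_pos h2, if_pos h1, if_pos h2, dl_cons, dl_cons, h1, h2]
            ring
          · rw [if_pos h1, if_neg h2, if_pos h1, if_neg h2, dl_cons, h1]
            ring
        · by_cases h2 : p.2 = g
          · rw [if_neg h1, if_pos h2, if_neg h1, if_pos h2, dl_cons, h2]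
            ring
          · rw [if_neg h1, if_neg h2, if_neg h1, if_neg h2]
            ring
      rw [Finset.sum_congr rfl (fun g _ => e g), Finset.sum_add_distrib,
        Finset.sum_add_distrib, Finset.sum_sub_distrib]
      rw [Finset.sum_ite_eq Finset.univ p.1, Finset.sum_ite_eq Finset.univ p.2]
      simp only [Finset.mem_univ, if_true]
      rw [dl_cons, dl_cons, add_right_comm a (Pi.single p.2 1) (Pi.single p.1 1)]
      ring
    rw [goal, h1, h2, sub_zero]

/-- One step of the contraction. -/
theorem contract_step [CharZero R] (c : (Fin q → ℕ) → R) (D k : ℕ)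
    (hTI : ∀ a : Fin q → ℕ, (∑ g, a g) + 1 = D →
      ∑ g, ((a g : R) + 1) * c (a + Pi.single g 1) = 0)
    (hk : 3 * k + q + 1 ≤ D)
    (hP : ∀ L : List (Fin q × Fin q), L.length = k + 1 → (∀ p ∈ L, p.1 < p.2) →
      ∀ a : Fin q → ℕ, (∑ g, a g) + (k + 1) = D → dv L ≤ a → dl L c a = 0) :
    ∀ L : List (Fin q × Fin q), L.length = k → (∀ p ∈ L, p.1 < p.2) →
      ∀ a : Fin q → ℕ, (∑ g, a g) + k = D → dv L ≤ a → dl L c a = 0 := by
  intro L hL hL2
  have main : ∀ (j : ℕ) (al : Fin q → ℕ), (Finset.univ.filter (fun g => al g = 0)).card = j →
      (∑ g, al g) + 3 * k = D → dl L c (dv L + al) = 0 := by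
    intro j
    induction j using Nat.strong_induction_on with
    | _ j IH =>
      intro al hj hsum
      -- a coordinate which is at least two
      obtain ⟨g0, hg0⟩ : ∃ g0, 2 ≤ al g0 := by
        by_contra hcon
        push Not at hcon
        have h1 : ∑ g, al g ≤ ∑ _g : Fin q, 1 :=
          Finset.sum_le_sum (fun g _ => by have := hcon g; omega)
        simp at h1
        omega
      set be : Fin q → ℕ := al - Pi.single g0 1 with hbe
      have hbe1 : be + Pi.single g0 1 = al := by
        funext g
        by_cases h : g = g0
        · subst h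
          simp [hbe]
          omega
        · simp [hbe, h]
      have hbe0 : 1 ≤ be g0 := by
        have : be g0 = al g0 - 1 := by simp [hbe]
        omega
      have hbez : ∀ g, be g = 0 ↔ al g = 0 := by
        intro g
        by_cases h : g = g0
        · subst h
          constructor
          · intro h'; omega
          · intro h'; omega
        · simp [hbe, h]
      have hbesum : (∑ g, be g) + 1 = ∑ g, al g := by
        rw [← hbe1]
        simp only [Pi.add_apply, Finset.sum_add_distrib]
        rw [Finset.sum_pi_single' g0 1 Finset.univ]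
        simp
      have hTIL := ti_dl c D hTI L (dv L + be) (by
        simp only [Pi.add_apply, Finset.sum_add_distrib]
        rw [sum_dv, hL]
        omega)
      -- values
      have hval : ∀ g, dl L c (dv L + be + Pi.single g 1) =
          if be g = 0 then 0 else dl L c (dv L + al) := by
        intro g
        by_cases hg : be g = 0
        · rw [if_pos hg]
          have hgg : g ≠ g0 := by
            rintro rfl
            omega
          have hsum2 : ∑ x, (be + Pi.single g 1 : Fin q → ℕ) x = ∑ x, al x := by
            simp only [Pi.add_apply, Finset.sum_add_distrib]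
            rw [Finset.sum_pi_single' g 1 Finset.univ]
            simp
            omega
          have hcard : (Finset.univ.filter
              (fun x => (be + Pi.single g 1 : Fin q → ℕ) x = 0)).card < j := by
            rw [← hj]
            apply Finset.card_lt_card
            rw [Finset.ssubset_iff_of_subset]
            · refine ⟨g, ?_, ?_⟩
              · simp [(hbez g).1 hg]
              · simp
            · intro x hx
              simp only [Finset.mem_filter, Finset.mem_univ, true_and, Pi.add_apply] at hx ⊢
              apply (hbez x).1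
              omega
          have := IH _ hcard (be + Pi.single g 1) rfl (by rw [hsum2]; exact hsum)
          rw [add_assoc]
          exact this
        · rw [if_neg hg]
          by_cases hgg : g = g0
          · subst hgg
            rw [add_assoc, hbe1]
          · -- use the hypothesis for k+1
            have hge : 1 ≤ be g := Nat.one_le_iff_ne_zero.2 hg
            have hle : ∀ x y : Fin q, x ≠ y → 1 ≤ be x → 1 ≤ be y →
                dv L + Pi.single x 1 + Pi.single y 1 ≤ dv L + be := by
              intro x y hxy hx hy z
              simp only [Pi.add_apply, Pi.single_apply]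
              by_cases h1 : z = x
              · subst h1
                rw [if_pos rfl, if_neg hxy]
                omega
              · by_cases h2 : z = y
                · subst h2
                  rw [if_neg h1, if_pos rfl]
                  omega
                · rw [if_neg h1, if_neg h2]
                  omega
            have hsz : (∑ x, (dv L + be : Fin q → ℕ) x) + (k + 1) = D := by
              simp only [Pi.add_apply, Finset.sum_add_distrib]
              rw [sum_dv, hL]
              omega
            rcases lt_or_gt_of_ne hgg with h | h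
            · have := hP ((g, g0) :: L) (by simp [hL]) (by
                intro p hp
                rcases List.mem_cons.1 hp with rfl | hp
                · exact h
                · exact hL2 p hp) (dv L + be) hsz (by
                rw [dv_cons]
                exact hle g g0 hgg hge hbe0)
              rw [dl_cons] at this
              simp only at this
              rw [sub_eq_zero.1 this, add_assoc, hbe1]
            · have := hP ((g0, g) :: L) (by simp [hL]) (by
                intro p hp
                rcases List.mem_cons.1 hp with rfl | hp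
                · exact h
                · exact hL2 p hp) (dv L + be) hsz (by
                rw [dv_cons]
                exact hle g0 g (Ne.symm hgg) hbe0 hge)
              rw [dl_cons] at this
              simp only at this
              rw [← sub_eq_zero.1 this, add_assoc, hbe1]
      rw [Finset.sum_congr rfl (fun g _ => by rw [hval g])] at hTIL
      have hTIL2 : (∑ g, (if be g = 0 then 0 else
          ((dv L g : R) + (be g : R) + 1 + (dv L g : R)))) * dl L c (dv L + al) = 0 := by
        refine Eq.trans ?_ hTIL
        rw [Finset.sum_mul]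
        apply Finset.sum_congr rfl
        intro g _
        by_cases hg : be g = 0
        · simp [hg]
        · rw [if_neg hg, if_neg hg]
          simp only [Pi.add_apply]
          push_cast
          ring
      rcases mul_eq_zero.1 hTIL2 with h | h
      · exfalso
        have hn : (((∑ g, (if be g = 0 then 0 else (dv L g + be g + 1 + dv L g)) : ℕ)) : R) = 0 := by
          rw [← h]
          push_cast
          rfl
        rw [Nat.cast_eq_zero] at hn
        have := (Finset.sum_eq_zero_iff.1 hn) g0 (Finset.mem_univ _)
        rw [if_neg (by omega)] at this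
        omega
      · exact h
  intro a ha hda
  have : dv L + (a - dv L) = a := by
    funext g
    have h9 : dv L g ≤ a g := hda g
    simp only [Pi.add_apply, Pi.sub_apply]
    omega
  rw [← this]
  apply main _ (a - dv L) rfl
  have h1 : (∑ g, (dv L + (a - dv L) : Fin q → ℕ) g) = ∑ g, a g := by rw [this]
  simp only [Pi.add_apply, Finset.sum_add_distrib] at h1
  rw [sum_dv, hL] at h1
  omega

/-- Contraction: `D ≥ 3κ + q - 2` suffices. -/
theorem contract [CharZero R] (c : (Fin q → ℕ) → R) (D K : ℕ)
    (hTI : ∀ a : Fin q → ℕ, (∑ g, a g) + 1 = D →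
      ∑ g, ((a g : R) + 1) * c (a + Pi.single g 1) = 0)
    (hD : 3 * K + q ≤ D + 2)
    (hM : ∀ L : List (Fin q × Fin q), L.length = K → (∀ p ∈ L, p.1 < p.2) →
      ∀ a : Fin q → ℕ, (∑ g, a g) + K = D → dv L ≤ a → dl L c a = 0) :
    ∀ a : Fin q → ℕ, (∑ g, a g) = D → c a = 0 := by
  have all : ∀ j, j ≤ K → ∀ L : List (Fin q × Fin q), L.length = K - j → (∀ p ∈ L, p.1 < p.2) →
      ∀ a : Fin q → ℕ, (∑ g, a g) + (K - j) = D → dv L ≤ a → dl L c a = 0 := by
    intro j
    induction j with
    | zero =>
      intro _ L hL hL2 a ha hd
      exact hM L (by simpa using hL) hL2 a (by simpa using ha) hd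
    | succ j ih =>
      intro hj
      have e : K - j = (K - (j + 1)) + 1 := by omega
      have ih' := ih (by omega)
      rw [e] at ih'
      exact contract_step c D (K - (j + 1)) hTI (by omega) ih'
  intro a ha
  have := all K le_rfl [] (by simp) (by simp) a (by simpa using ha) (by simp)
  simpa using this

/-- One step of the contraction, sharp thresholds. -/
theorem contract_step_sharp [CharZero R] (c : (Fin q → ℕ) → R) (D k : ℕ)
    (hTI : ∀ a : Fin q → ℕ, (∑ g, a g) + 1 = D →
      ∑ g, ((a g : R) + 1) * c (a + Pi.single g 1) = 0)
    (hk : 3 * k + 1 ≤ D)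
    (hP : ∀ L : List (Fin q × Fin q), L.length = k + 1 → (∀ p ∈ L, p.1 < p.2) →
      ∀ a : Fin q → ℕ, (∑ g, a g) + (k + 1) = D → (∀ g, dv L g ≤ a g + 1) → dl L c a = 0) :
    ∀ L : List (Fin q × Fin q), L.length = k → (∀ p ∈ L, p.1 < p.2) →
      ∀ a : Fin q → ℕ, (∑ g, a g) + k = D → (∀ g, dv L g ≤ a g + 1) → dl L c a = 0 := by
  intro L hL hL2
  have main : ∀ (j : ℕ) (a : Fin q → ℕ), (Finset.univ.filter (fun g => a g < dv L g)).card = j →
      (∑ g, a g) + k = D → (∀ g, dv L g ≤ a g + 1) → dl L c a = 0 := by
    intro j
    induction j using Nat.strong_induction_on with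
    | _ j IH =>
      intro a hj hsum hd
      obtain ⟨g0, hg0⟩ : ∃ g0, dv L g0 + 1 ≤ a g0 := by
        by_contra hcon
        push Not at hcon
        have h1 : ∑ g, a g ≤ ∑ g, dv L g :=
          Finset.sum_le_sum (fun g _ => by have := hcon g; omega)
        rw [sum_dv, hL] at h1
        omega
      set be : Fin q → ℕ := a - Pi.single g0 1 with hbe
      have hbe1 : be + Pi.single g0 1 = a := by
        funext g
        by_cases h : g = g0
        · subst h
          simp [hbe]
          omega
        · simp [hbe, h]
      have hbe0 : dv L g0 ≤ be g0 := by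
        have : be g0 = a g0 - 1 := by simp [hbe]
        omega
      have hbea : ∀ g, be g < dv L g ↔ a g < dv L g := by
        intro g
        by_cases h : g = g0
        · subst h
          constructor
          · intro h'; omega
          · intro h'; omega
        · simp [hbe, h]
      have hbed : ∀ g, dv L g ≤ be g + 1 := by
        intro g
        by_cases h : g = g0
        · subst h
          omega
        · have := hd g
          simpa [hbe, h] using this
      have hbesum : (∑ g, be g) + 1 = ∑ g, a g := by
        rw [← hbe1]
        simp only [Pi.add_apply, Finset.sum_add_distrib]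
        rw [Finset.sum_pi_single' g0 1 Finset.univ]
        simp
      have hTIL := ti_dl c D hTI L be (by rw [hL]; omega)
      have hval : ∀ g, dl L c (be + Pi.single g 1) =
          if be g < dv L g then 0 else dl L c a := by
        intro g
        by_cases hg : be g < dv L g
        · rw [if_pos hg]
          have hgg : g ≠ g0 := by
            rintro rfl
            omega
          have hsum2 : ∑ x, (be + Pi.single g 1 : Fin q → ℕ) x = ∑ x, a x := by
            simp only [Pi.add_apply, Finset.sum_add_distrib]
            rw [Finset.sum_pi_single' g 1 Finset.univ]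
            simp
            omega
          have hcard : (Finset.univ.filter
              (fun x => (be + Pi.single g 1 : Fin q → ℕ) x < dv L x)).card < j := by
            rw [← hj]
            apply Finset.card_lt_card
            rw [Finset.ssubset_iff_of_subset]
            · refine ⟨g, ?_, ?_⟩
              · simp [(hbea g).1 hg]
              · have := hbed g
                simp
                omega
            · intro x hx
              simp only [Finset.mem_filter, Finset.mem_univ, true_and, Pi.add_apply] at hx ⊢
              apply (hbea x).1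
              omega
          exact IH _ hcard (be + Pi.single g 1) rfl (by rw [hsum2]; exact hsum) (by
            intro x
            have := hbed x
            simp only [Pi.add_apply]
            omega)
        · rw [if_neg hg]
          by_cases hgg : g = g0
          · subst hgg
            rw [hbe1]
          · have hge : dv L g ≤ be g := not_lt.1 hg
            have hle : ∀ x y : Fin q, x ≠ y → dv L x ≤ be x → dv L y ≤ be y →
                ∀ z, (dv L + Pi.single x 1 + Pi.single y 1 : Fin q → ℕ) z ≤ be z + 1 := by
              intro x y hxy hx hy z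
              simp only [Pi.add_apply, Pi.single_apply]
              by_cases h1 : z = x
              · subst h1
                rw [if_pos rfl, if_neg hxy]
                omega
              · by_cases h2 : z = y
                · subst h2
                  rw [if_neg h1, if_pos rfl]
                  omega
                · rw [if_neg h1, if_neg h2]
                  have := hbed z
                  omega
            have hsz : (∑ x, be x) + (k + 1) = D := by omega
            rcases lt_or_gt_of_ne hgg with h | h
            · have := hP ((g, g0) :: L) (by simp [hL]) (by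
                intro p hp
                rcases List.mem_cons.1 hp with rfl | hp
                · exact h
                · exact hL2 p hp) be hsz (by
                rw [dv_cons]
                exact hle g g0 hgg hge hbe0)
              rw [dl_cons] at this
              simp only at this
              rw [sub_eq_zero.1 this, hbe1]
            · have := hP ((g0, g) :: L) (by simp [hL]) (by
                intro p hp
                rcases List.mem_cons.1 hp with rfl | hp
                · exact h
                · exact hL2 p hp) be hsz (by
                rw [dv_cons]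
                exact hle g0 g (Ne.symm hgg) hbe0 hge)
              rw [dl_cons] at this
              simp only at this
              rw [← sub_eq_zero.1 this, hbe1]
      rw [Finset.sum_congr rfl (fun g _ => by rw [hval g])] at hTIL
      have hTIL2 : (∑ g, (if be g < dv L g then 0 else
          ((be g : R) + 1 + (dv L g : R)))) * dl L c a = 0 := by
        refine Eq.trans ?_ hTIL
        rw [Finset.sum_mul]
        apply Finset.sum_congr rfl
        intro g _
        by_cases hg : be g < dv L g
        · simp [hg]
        · rw [if_neg hg, if_neg hg]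
      rcases mul_eq_zero.1 hTIL2 with h | h
      · exfalso
        have hn : (((∑ g, (if be g < dv L g then 0 else (be g + 1 + dv L g)) : ℕ)) : R) = 0 := by
          rw [← h]
          push_cast
          rfl
        rw [Nat.cast_eq_zero] at hn
        have := (Finset.sum_eq_zero_iff.1 hn) g0 (Finset.mem_univ _)
        rw [if_neg (by omega)] at this
        omega
      · exact h
  intro a ha hda
  exact main _ a rfl ha hda

/-- Contraction with sharp thresholds: `D ≥ 3κ - 2` suffices. -/
theorem contract_sharp [CharZero R] (c : (Fin q → ℕ) → R) (D K : ℕ)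
    (hTI : ∀ a : Fin q → ℕ, (∑ g, a g) + 1 = D →
      ∑ g, ((a g : R) + 1) * c (a + Pi.single g 1) = 0)
    (hD : 3 * K ≤ D + 2)
    (hM : ∀ L : List (Fin q × Fin q), L.length = K → (∀ p ∈ L, p.1 < p.2) →
      ∀ a : Fin q → ℕ, (∑ g, a g) + K = D → (∀ g, dv L g ≤ a g + 1) → dl L c a = 0) :
    ∀ a : Fin q → ℕ, (∑ g, a g) = D → c a = 0 := by
  have all : ∀ j, j ≤ K → ∀ L : List (Fin q × Fin q), L.length = K - j → (∀ p ∈ L, p.1 < p.2) →
      ∀ a : Fin q → ℕ, (∑ g, a g) + (K - j) = D → (∀ g, dv L g ≤ a g + 1) → dl L c a = 0 := by
    intro j
    induction j with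
    | zero =>
      intro _ L hL hL2 a ha hd
      exact hM L (by simpa using hL) hL2 a (by simpa using ha) hd
    | succ j ih =>
      intro hj
      have e : K - j = (K - (j + 1)) + 1 := by omega
      have ih' := ih (by omega)
      rw [e] at ih'
      exact contract_step_sharp c D (K - (j + 1)) hTI (by omega) ih'
  intro a ha
  have := all K le_rfl [] (by simp) (by simp) a (by simpa using ha) (by simp)
  simpa using this

/-- Weight which decreases when a crossing is resolved. -/
def wt (L : List (Fin q × Fin q)) : ℕ :=
  (L.map (fun p => (p.2.val - p.1.val) * (2 * q - (p.2.val - p.1.val)))).sum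

theorem wt_perm {L L' : List (Fin q × Fin q)} (h : L.Perm L') : wt L = wt L' := by
  unfold wt
  exact (h.map _).sum_eq

theorem wt_cons (p : Fin q × Fin q) (L : List (Fin q × Fin q)) :
    wt (p :: L) = (p.2.val - p.1.val) * (2 * q - (p.2.val - p.1.val)) + wt L := by
  simp [wt]

private theorem w_aux1 (n i j k l : ℕ) (h1 : i < j) (h2 : j < k) (h3 : k < l) (h4 : l < n) :
    (j - i) * (2 * n - (j - i)) + (l - k) * (2 * n - (l - k)) <
      (k - i) * (2 * n - (k - i)) + (l - j) * (2 * n - (l - j)) := by
  obtain ⟨x, rfl⟩ := Nat.exists_eq_add_of_lt h1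
  obtain ⟨y, rfl⟩ := Nat.exists_eq_add_of_lt h2
  obtain ⟨z, rfl⟩ := Nat.exists_eq_add_of_lt h3
  obtain ⟨t, rfl⟩ := Nat.exists_eq_add_of_lt h4
  have e1 : i + x + 1 - i = x + 1 := by omega
  have e2 : i + x + 1 + y + 1 + z + 1 - (i + x + 1 + y + 1) = z + 1 := by omega
  have e3 : i + x + 1 + y + 1 - i = x + y + 2 := by omega
  have e4 : i + x + 1 + y + 1 + z + 1 - (i + x + 1) = y + z + 2 := by omega
  rw [e1, e2, e3, e4]
  have f1 : 2 * (i + x + 1 + y + 1 + z + 1 + t + 1) - (x + 1) = 2 * i + x + 2 * y + 2 * z + 2 * t + 7 := by omega
  have f2 : 2 * (i + x + 1 + y + 1 + z + 1 + t + 1) - (z + 1) = 2 * i + 2 * x + 2 * y + z + 2 * t + 7 := by omega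
  have f3 : 2 * (i + x + 1 + y + 1 + z + 1 + t + 1) - (x + y + 2) = 2 * i + x + y + 2 * z + 2 * t + 6 := by omega
  have f4 : 2 * (i + x + 1 + y + 1 + z + 1 + t + 1) - (y + z + 2) = 2 * i + 2 * x + y + z + 2 * t + 6 := by omega
  rw [f1, f2, f3, f4]
  nlinarith [mul_nonneg (Nat.zero_le x) (Nat.zero_le y), Nat.zero_le (x * y), Nat.zero_le (x * z),
    Nat.zero_le (y * z), Nat.zero_le (i * y), Nat.zero_le (t * y), Nat.zero_le (y * y)]

private theorem w_aux2 (n i j k l : ℕ) (h1 : i < j) (h2 : j < k) (h3 : k < l) (h4 : l < n) :
    (l - i) * (2 * n - (l - i)) + (k - j) * (2 * n - (k - j)) <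
      (k - i) * (2 * n - (k - i)) + (l - j) * (2 * n - (l - j)) := by
  obtain ⟨x, rfl⟩ := Nat.exists_eq_add_of_lt h1
  obtain ⟨y, rfl⟩ := Nat.exists_eq_add_of_lt h2
  obtain ⟨z, rfl⟩ := Nat.exists_eq_add_of_lt h3
  obtain ⟨t, rfl⟩ := Nat.exists_eq_add_of_lt h4
  have e1 : i + x + 1 + y + 1 + z + 1 - i = x + y + z + 3 := by omega
  have e2 : i + x + 1 + y + 1 - (i + x + 1) = y + 1 := by omega
  have e3 : i + x + 1 + y + 1 - i = x + y + 2 := by omega
  have e4 : i + x + 1 + y + 1 + z + 1 - (i + x + 1) = y + z + 2 := by omega
  rw [e1, e2, e3, e4]
  have f1 : 2 * (i + x + 1 + y + 1 + z + 1 + t + 1) - (x + y + z + 3) = 2 * i + x + y + z + 2 * t + 5 := by omega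
  have f2 : 2 * (i + x + 1 + y + 1 + z + 1 + t + 1) - (y + 1) = 2 * i + 2 * x + y + 2 * z + 2 * t + 7 := by omega
  have f3 : 2 * (i + x + 1 + y + 1 + z + 1 + t + 1) - (x + y + 2) = 2 * i + x + y + 2 * z + 2 * t + 6 := by omega
  have f4 : 2 * (i + x + 1 + y + 1 + z + 1 + t + 1) - (y + z + 2) = 2 * i + 2 * x + y + z + 2 * t + 6 := by omega
  rw [f1, f2, f3, f4]
  nlinarith [Nat.zero_le (x * y), Nat.zero_le (x * z),
    Nat.zero_le (y * z), Nat.zero_le (i * y), Nat.zero_le (t * y), Nat.zero_le (y * y)]

/-- Straightening: if the iterated differences vanish for all noncrossing lists, they vanish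
for all lists.  `P` is any condition on the valences and the exponent vector. -/
theorem straighten (c : (Fin q → ℕ) → R) (K : ℕ) (P : (Fin q → ℕ) → (Fin q → ℕ) → Prop)
    (h : ∀ L : List (Fin q × Fin q), L.length = K → (∀ p ∈ L, p.1 < p.2) → NC L →
      ∀ a : Fin q → ℕ, P (dv L) a → dl L c a = 0) :
    ∀ L : List (Fin q × Fin q), L.length = K → (∀ p ∈ L, p.1 < p.2) →
      ∀ a : Fin q → ℕ, P (dv L) a → dl L c a = 0 := by
  have main : ∀ (w : ℕ) (L : List (Fin q × Fin q)), wt L = w → L.length = K →
      (∀ p ∈ L, p.1 < p.2) →
      ∀ a : Fin q → ℕ, P (dv L) a → dl L c a = 0 := by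
    intro w
    induction w using Nat.strong_induction_on with
    | _ w IH =>
      intro L hw hK hL a hd
      by_cases hnc : NC L
      · exact h L hK hL hnc a hd
      · unfold NC at hnc
        push Not at hnc
        obtain ⟨p, hp, r, hr, h1, h2, h3⟩ := hnc
        have hpr : r ≠ p := by
          rintro rfl
          exact lt_irrefl _ h1
        -- L ~ p :: r :: L'
        have hperm1 : L.Perm (p :: L.erase p) := List.perm_cons_erase hp
        have hr' : r ∈ L.erase p := (List.mem_erase_of_ne hpr).2 hr
        have hperm2 : (L.erase p).Perm (r :: (L.erase p).erase r) := List.perm_cons_erase hr'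
        set M := (L.erase p).erase r with hM
        have hperm : L.Perm (p :: r :: M) := hperm1.trans (hperm2.cons p)
        have hlen : M.length + 2 = K := by
          have := hperm.length_eq
          simp only [List.length_cons] at this
          omega
        have hMl : ∀ x ∈ M, x.1 < x.2 := by
          intro x hx
          apply hL
          exact hperm.mem_iff.2 (List.mem_cons_of_mem _ (List.mem_cons_of_mem _ hx))
        obtain ⟨i, k⟩ := p
        obtain ⟨j, l⟩ := r
        simp only at h1 h2 h3
        have hwt : wt L = (k.val - i.val) * (2 * q - (k.val - i.val)) +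
            ((l.val - j.val) * (2 * q - (l.val - j.val)) + wt M) := by
          rw [wt_perm hperm, wt_cons, wt_cons]
        have hdv : dv L = dv M + Pi.single j 1 + Pi.single l 1 + Pi.single i 1 + Pi.single k 1 := by
          rw [dv_perm hperm, dv_cons, dv_cons]
        have A := w_aux1 q i.val j.val k.val l.val h1 h2 h3 l.isLt
        have B := w_aux2 q i.val j.val k.val l.val h1 h2 h3 l.isLt
        have r1 := IH (wt ((i, j) :: (k, l) :: M)) (by
            rw [wt_cons, wt_cons, ← hw, hwt]
            simp only
            omega) ((i, j) :: (k, l) :: M) rfl (by simp; omega) (by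
            intro x hx
            rcases List.mem_cons.1 hx with rfl | hx
            · exact h1
            · rcases List.mem_cons.1 hx with rfl | hx
              · exact h3
              · exact hMl x hx) a (by
            rw [dv_cons, dv_cons]
            rw [hdv] at hd
            convert hd using 1
            simp only
            abel)
        have r2 := IH (wt ((i, l) :: (j, k) :: M)) (by
            rw [wt_cons, wt_cons, ← hw, hwt]
            simp only
            omega) ((i, l) :: (j, k) :: M) rfl (by simp; omega) (by
            intro x hx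
            rcases List.mem_cons.1 hx with rfl | hx
            · exact h1.trans (h2.trans h3)
            · rcases List.mem_cons.1 hx with rfl | hx
              · exact h2
              · exact hMl x hx) a (by
            rw [dv_cons, dv_cons]
            rw [hdv] at hd
            convert hd using 1
            simp only
            abel)
        rw [dl_perm hperm]
        have hadd : dl ((i, k) :: (j, l) :: M) c a =
            dl ((i, j) :: (k, l) :: M) c a + dl ((i, l) :: (j, k) :: M) c a := by
          simp only [dl_cons]
          rw [add_right_comm a (Pi.single l 1) (Pi.single j 1),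
            add_right_comm a (Pi.single l 1) (Pi.single k 1),
            add_right_comm a (Pi.single k 1) (Pi.single j 1)]
          ring
        rw [hadd, r1, r2, add_zero]
  intro L hK hL a hd
  exact main _ L rfl hK hL a hd

/-- Parts IV and V together. -/
theorem contract_nc [CharZero R] (c : (Fin q → ℕ) → R) (D K : ℕ)
    (hTI : ∀ a : Fin q → ℕ, (∑ g, a g) + 1 = D →
      ∑ g, ((a g : R) + 1) * c (a + Pi.single g 1) = 0)
    (hD : 3 * K + q ≤ D + 2)
    (hM : ∀ L : List (Fin q × Fin q), L.length = K → (∀ p ∈ L, p.1 < p.2) → NC L →
      ∀ a : Fin q → ℕ, (∑ g, a g) + K = D → dv L ≤ a → dl L c a = 0) :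
    ∀ a : Fin q → ℕ, (∑ g, a g) = D → c a = 0 :=
  contract c D K hTI hD (fun L hL hL2 a ha hd =>
    straighten c K (fun d b => (∑ g, b g) + K = D ∧ d ≤ b)
      (fun L' h1 h2 h3 b hb => hM L' h1 h2 h3 b hb.1 hb.2) L hL hL2 a ⟨ha, hd⟩)

/-- Parts IV and V together, sharp thresholds `dv L g ≤ a g + 1`, condition `D ≥ 3κ - 2`. -/
theorem contract_nc_sharp [CharZero R] (c : (Fin q → ℕ) → R) (D K : ℕ)
    (hTI : ∀ a : Fin q → ℕ, (∑ g, a g) + 1 = D →
      ∑ g, ((a g : R) + 1) * c (a + Pi.single g 1) = 0)
    (hD : 3 * K ≤ D + 2)
    (hM : ∀ L : List (Fin q × Fin q), L.length = K → (∀ p ∈ L, p.1 < p.2) → NC L →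
      ∀ a : Fin q → ℕ, (∑ g, a g) + K = D → (∀ g, dv L g ≤ a g + 1) → dl L c a = 0) :
    ∀ a : Fin q → ℕ, (∑ g, a g) = D → c a = 0 :=
  contract_sharp c D K hTI hD (fun L hL hL2 a ha hd =>
    straighten c K (fun d b => (∑ g, b g) + K = D ∧ ∀ g, d g ≤ b g + 1)
      (fun L' h1 h2 h3 b hb => hM L' h1 h2 h3 b hb.1 hb.2) L hL hL2 a ⟨ha, hd⟩)

end LieLow
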