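import Mathlib
import Pool.Agent.LieLow.Contract

/-!
# Mixed contraction: sharp thresholds outside `N`, plain thresholds on `N`

`del g` is `1` for the labels with the plain threshold `dv L g ≤ a g` and `0` for the labels with the
sharp threshold `dv L g ≤ a g + 1`.
-/

namespace LieLow

open Finset

variable {q : ℕ} {R : Type*} [Field R]

/-- One step of the contraction, mixed thresholds. -/
theorem contract_step_mix [CharZero R] (c : (Fin q → ℕ) → R) (D k : ℕ)
    (hTI : ∀ a : Fin q → ℕ, (∑ g, a g) + 1 = D →
      ∑ g, ((a g : R) + 1) * c (a + Pi.single g 1) = 0)
    (del : Fin q → ℕ) (hk : 3 * k + (∑ g, del g) + 1 ≤ D)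
    (hP : ∀ L : List (Fin q × Fin q), L.length = k + 1 → (∀ p ∈ L, p.1 < p.2) →
      ∀ a : Fin q → ℕ, (∑ g, a g) + (k + 1) = D → (∀ g, dv L g + del g ≤ a g + 1) → dl L c a = 0) :
    ∀ L : List (Fin q × Fin q), L.length = k → (∀ p ∈ L, p.1 < p.2) →
      ∀ a : Fin q → ℕ, (∑ g, a g) + k = D → (∀ g, dv L g + del g ≤ a g + 1) → dl L c a = 0 := by
  intro L hL hL2
  have main : ∀ (j : ℕ) (a : Fin q → ℕ), (Finset.univ.filter (fun g => a g < dv L g + del g)).card = j →
      (∑ g, a g) + k = D → (∀ g, dv L g + del g ≤ a g + 1) → dl L c a = 0 := by
    intro j
    induction j using Nat.strong_induction_on with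
    | _ j IH =>
      intro a hj hsum hd
      obtain ⟨g0, hg0⟩ : ∃ g0, dv L g0 + del g0 + 1 ≤ a g0 := by
        by_contra hcon
        push Not at hcon
        have h1 : ∑ g, a g ≤ ∑ g, (dv L g + del g) :=
          Finset.sum_le_sum (fun g _ => by have := hcon g; omega)
        rw [Finset.sum_add_distrib, sum_dv, hL] at h1
        omega
      set be : Fin q → ℕ := a - Pi.single g0 1 with hbe
      have hbe1 : be + Pi.single g0 1 = a := by
        funext g
        by_cases h : g = g0
        · subst h
          simp [hbe]
          omega
        · simp [hbe, h]
      have hbe0 : dv L g0 + del g0 ≤ be g0 := by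
        have : be g0 = a g0 - 1 := by simp [hbe]
        omega
      have hbea : ∀ g, be g < dv L g + del g ↔ a g < dv L g + del g := by
        intro g
        by_cases h : g = g0
        · subst h
          constructor
          · intro h'; omega
          · intro h'; omega
        · simp [hbe, h]
      have hbed : ∀ g, dv L g + del g ≤ be g + 1 := by
        intro g
        by_cases h : g = g0
        · subst h
          omega
        · have := hd g
          simpa [hbe, h] using this
      have hbesum : (∑ g, be g) + 1 = ∑ g, a g := by
        rw [← hbe1]
        simp only [Pi.add_apply, Finset.sum_add_distrib]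
        rw [Finset.sum_pi_single' g0 1 Finset.univ]
        simp
      have hTIL := ti_dl c D hTI L be (by rw [hL]; omega)
      have hval : ∀ g, dl L c (be + Pi.single g 1) =
          if be g < dv L g + del g then 0 else dl L c a := by
        intro g
        by_cases hg : be g < dv L g + del g
        · rw [if_pos hg]
          have hgg : g ≠ g0 := by
            rintro rfl
            omega
          have hsum2 : ∑ x, (be + Pi.single g 1 : Fin q → ℕ) x = ∑ x, a x := by
            simp only [Pi.add_apply, Finset.sum_add_distrib]
            rw [Finset.sum_pi_single' g 1 Finset.univ]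
            simp
            omega
          have hcard : (Finset.univ.filter
              (fun x => (be + Pi.single g 1 : Fin q → ℕ) x < dv L x + del x)).card < j := by
            rw [← hj]
            apply Finset.card_lt_card
            rw [Finset.ssubset_iff_of_subset]
            · refine ⟨g, ?_, ?_⟩
              · simp [(hbea g).1 hg]
              · have := hbed g
                simp
                omega
            · intro x hx
              simp only [Finset.mem_filter, Finset.mem_univ, true_and, Pi.add_apply] at hx ⊢
              apply (hbea x).1
              omega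
          exact IH _ hcard (be + Pi.single g 1) rfl (by rw [hsum2]; exact hsum) (by
            intro x
            have := hbed x
            simp only [Pi.add_apply]
            omega)
        · rw [if_neg hg]
          by_cases hgg : g = g0
          · subst hgg
            rw [hbe1]
          · have hge : dv L g + del g ≤ be g := not_lt.1 hg
            have hle : ∀ x y : Fin q, x ≠ y → dv L x + del x ≤ be x → dv L y + del y ≤ be y →
                ∀ z, (dv L + Pi.single x 1 + Pi.single y 1 : Fin q → ℕ) z + del z ≤ be z + 1 := by
              intro x y hxy hx hy z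
              simp only [Pi.add_apply, Pi.single_apply]
              by_cases h1 : z = x
              · subst h1
                rw [if_pos rfl, if_neg hxy]
                omega
              · by_cases h2 : z = y
                · subst h2
                  rw [if_neg h1, if_pos rfl]
                  omega
                · rw [if_neg h1, if_neg h2]
                  have := hbed z
                  omega
            have hsz : (∑ x, be x) + (k + 1) = D := by omega
            rcases lt_or_gt_of_ne hgg with h | h
            · have := hP ((g, g0) :: L) (by simp [hL]) (by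
                intro p hp
                rcases List.mem_cons.1 hp with rfl | hp
                · exact h
                · exact hL2 p hp) be hsz (by
                rw [dv_cons]
                exact hle g g0 hgg hge hbe0)
              rw [dl_cons] at this
              simp only at this
              rw [sub_eq_zero.1 this, hbe1]
            · have := hP ((g0, g) :: L) (by simp [hL]) (by
                intro p hp
                rcases List.mem_cons.1 hp with rfl | hp
                · exact h
                · exact hL2 p hp) be hsz (by
                rw [dv_cons]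
                exact hle g0 g (Ne.symm hgg) hbe0 hge)
              rw [dl_cons] at this
              simp only at this
              rw [← sub_eq_zero.1 this, hbe1]
      rw [Finset.sum_congr rfl (fun g _ => by rw [hval g])] at hTIL
      have hTIL2 : (∑ g, (if be g < dv L g + del g then 0 else
          ((be g : R) + 1 + (dv L g : R)))) * dl L c a = 0 := by
        refine Eq.trans ?_ hTIL
        rw [Finset.sum_mul]
        apply Finset.sum_congr rfl
        intro g _
        by_cases hg : be g < dv L g + del g
        · simp [hg]
        · rw [if_neg hg, if_neg hg]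
      rcases mul_eq_zero.1 hTIL2 with h | h
      · exfalso
        have hn : (((∑ g, (if be g < dv L g + del g then 0 else (be g + 1 + dv L g)) : ℕ)) : R) = 0 := by
          rw [← h]
          push_cast
          rfl
        rw [Nat.cast_eq_zero] at hn
        have := (Finset.sum_eq_zero_iff.1 hn) g0 (Finset.mem_univ _)
        rw [if_neg (by omega)] at this
        omega
      · exact h
  intro a ha hda
  exact main _ a rfl ha hda

/-- Contraction with mixed thresholds. -/
theorem contract_mix [CharZero R] (c : (Fin q → ℕ) → R) (D K : ℕ)
    (hTI : ∀ a : Fin q → ℕ, (∑ g, a g) + 1 = D →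
      ∑ g, ((a g : R) + 1) * c (a + Pi.single g 1) = 0)
    (del : Fin q → ℕ) (hdel : ∀ g, del g ≤ 1) (hD : 3 * K + (∑ g, del g) ≤ D + 2)
    (hM : ∀ L : List (Fin q × Fin q), L.length = K → (∀ p ∈ L, p.1 < p.2) →
      ∀ a : Fin q → ℕ, (∑ g, a g) + K = D → (∀ g, dv L g + del g ≤ a g + 1) → dl L c a = 0) :
    ∀ a : Fin q → ℕ, (∑ g, a g) = D → c a = 0 := by
  have all : ∀ j, j ≤ K → ∀ L : List (Fin q × Fin q), L.length = K - j → (∀ p ∈ L, p.1 < p.2) →
      ∀ a : Fin q → ℕ, (∑ g, a g) + (K - j) = D → (∀ g, dv L g + del g ≤ a g + 1) → dl L c a = 0 := by
    intro j
    induction j with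
    | zero =>
      intro _ L hL hL2 a ha hd
      exact hM L (by simpa using hL) hL2 a (by simpa using ha) hd
    | succ j ih =>
      intro hj
      have e : K - j = (K - (j + 1)) + 1 := by omega
      have ih' := ih (by omega)
      rw [e] at ih'
      exact contract_step_mix c D (K - (j + 1)) hTI del (by omega) ih'
  intro a ha
  have := all K le_rfl [] (by simp) (by simp) a (by simpa using ha) (by
    intro g
    have := hdel g
    simp only [dv_nil, Pi.zero_apply]
    omega)
  simpa using this

theorem contract_nc_mix [CharZero R] (c : (Fin q → ℕ) → R) (D K : ℕ) (N : Finset (Fin q))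
    (hTI : ∀ a : Fin q → ℕ, (∑ g, a g) + 1 = D →
      ∑ g, ((a g : R) + 1) * c (a + Pi.single g 1) = 0)
    (hD : 3 * K + N.card ≤ D + 2)
    (hM : ∀ L : List (Fin q × Fin q), L.length = K → (∀ p ∈ L, p.1 < p.2) → NC L →
      ∀ a : Fin q → ℕ, (∑ g, a g) + K = D → (∀ g, dv L g ≤ a g + 1) → (∀ g ∈ N, dv L g ≤ a g) →
        dl L c a = 0) :
    ∀ a : Fin q → ℕ, (∑ g, a g) = D → c a = 0 := by
  classical
  have hcard : ∑ g, (if g ∈ N then 1 else 0 : ℕ) = N.card := by
    rw [Finset.sum_ite_mem, Finset.univ_inter, Finset.sum_const, smul_eq_mul, mul_one]
  refine contract_mix c D K hTI (fun g => if g ∈ N then 1 else 0) ?_ (by rw [hcard]; exact hD) ?_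
  · intro g
    split_ifs <;> omega
  · intro L hL hL2 a ha hd
    refine straighten c K (fun d b => (∑ g, b g) + K = D ∧
      ∀ g, d g + (if g ∈ N then 1 else 0) ≤ b g + 1) ?_ L hL hL2 a ⟨ha, hd⟩
    intro L' h1 h2 h3 b hb
    refine hM L' h1 h2 h3 b hb.1 ?_ ?_
    · intro g
      have := hb.2 g
      omega
    · intro g hg
      have := hb.2 g
      rw [if_pos hg] at this
      omega

end LieLow
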